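import Mathlib

/-!
# Chebyshev polynomials that are small on an interval
-/

namespace DeckB

open Polynomial

lemma sinh_le_two_mul {x : ℝ} (h0 : 0 ≤ x) (h1 : x ≤ 1 / 2) : Real.sinh x ≤ 2 * x := by
  rw [Real.sinh_eq]
  have e1 : Real.exp x ≤ 1 / (1 - x) :=
    Real.exp_bound_div_one_sub_of_interval h0 (by linarith)
  have e2 : 1 / (1 - x) ≤ 1 + 2 * x := by
    rw [div_le_iff₀ (by linarith)]
    nlinarith
  have e3 : 1 - x ≤ Real.exp (-x) := by
    have := Real.add_one_le_exp (-x)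
    linarith
  linarith

lemma arsinh_ge {x : ℝ} (h0 : 0 ≤ x) (h1 : x ≤ 1) : x / 2 ≤ Real.arsinh x := by
  rw [← Real.arsinh_sinh (x / 2)]
  apply Real.arsinh_le_arsinh.2
  have := sinh_le_two_mul (x := x / 2) (by linarith) (by linarith)
  linarith

lemma cosh_two_arsinh {s : ℝ} (hs : 0 ≤ s) :
    Real.cosh (2 * Real.arsinh (Real.sqrt s)) = 1 + 2 * s := by
  rw [Real.cosh_two_mul, Real.cosh_sq, Real.sinh_arsinh, Real.sq_sqrt hs]
  ring

lemma eval_T_one_add {s : ℝ} (hs : 0 ≤ s) (m : ℕ) :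
    (Chebyshev.T ℝ m).eval (1 + 2 * s) = Real.cosh (m * (2 * Real.arsinh (Real.sqrt s))) := by
  rw [← cosh_two_arsinh hs, Chebyshev.T_real_cosh]
  simp

/-- Growth of the Chebyshev polynomial outside `[-1, 1]`. -/
lemma T_ge {h : ℝ} (h0 : 0 ≤ h) (h1 : h ≤ 1) (m : ℕ) :
    Real.exp (m * Real.sqrt h) / 2 ≤ (Chebyshev.T ℝ m).eval (1 + 2 * h) := by
  rw [eval_T_one_add h0, Real.cosh_eq]
  have e1 : (m : ℝ) * Real.sqrt h ≤ m * (2 * Real.arsinh (Real.sqrt h)) := by
    apply mul_le_mul_of_nonneg_left _ (Nat.cast_nonneg m)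
    have := arsinh_ge (Real.sqrt_nonneg h) (Real.sqrt_le_one.2 h1)
    linarith
  have e2 := Real.exp_le_exp.2 e1
  have e3 := Real.exp_pos (-(m * (2 * Real.arsinh (Real.sqrt h))))
  linarith

/-- The Chebyshev polynomial is bounded on `[-1, a]` by its value at `a ≥ 1`. -/
lemma abs_T_le {h y : ℝ} (h0 : 0 ≤ h) (m : ℕ) (hy : -1 ≤ y) (hy' : y ≤ 1 + 2 * h) :
    |(Chebyshev.T ℝ m).eval y| ≤ (Chebyshev.T ℝ m).eval (1 + 2 * h) := by
  by_cases hy1 : y ≤ 1
  · exact (Chebyshev.abs_eval_T_real_le_one m (abs_le.2 ⟨hy, hy1⟩)).trans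
      (Chebyshev.one_le_eval_T_real m (by linarith))
  · rw [not_le] at hy1
    obtain ⟨s, hs, rfl⟩ : ∃ s, 0 ≤ s ∧ y = 1 + 2 * s := ⟨(y - 1) / 2, by linarith, by ring⟩
    have hsh : s ≤ h := by linarith
    rw [abs_of_nonneg ((zero_le_one).trans (Chebyshev.one_le_eval_T_real m (by linarith))),
      eval_T_one_add hs, eval_T_one_add h0, Real.cosh_le_cosh]
    have e1 : 0 ≤ Real.arsinh (Real.sqrt s) := Real.arsinh_nonneg_iff.2 (Real.sqrt_nonneg s)
    have e2 : Real.arsinh (Real.sqrt s) ≤ Real.arsinh (Real.sqrt h) :=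
      Real.arsinh_le_arsinh.2 (Real.sqrt_le_sqrt hsh)
    rw [abs_of_nonneg (by positivity), abs_of_nonneg (by have := e1.trans e2; positivity)]
    apply mul_le_mul_of_nonneg_left _ (Nat.cast_nonneg m)
    linarith

/-- A crude bound for the Chebyshev polynomials everywhere. -/
lemma abs_T_le_pow (y : ℝ) : ∀ m : ℕ, |(Chebyshev.T ℝ (m : ℤ)).eval y| ≤ (1 + 2 * |y|) ^ m
  | 0 => by simp
  | 1 => by
    simp only [Nat.cast_one, Chebyshev.T_one, eval_X, pow_one]
    have := abs_nonneg y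
    linarith
  | m + 2 => by
    have h1 := abs_T_le_pow y (m + 1)
    have h2 := abs_T_le_pow y m
    have e : ((m + 2 : ℕ) : ℤ) = (m : ℤ) + 2 := by push_cast; ring
    have e' : ((m + 1 : ℕ) : ℤ) = (m : ℤ) + 1 := by push_cast; ring
    rw [e'] at h1
    rw [e, Chebyshev.T_add_two, eval_sub, eval_mul, eval_mul, eval_X, eval_ofNat]
    have h3 : |2 * y * (Chebyshev.T ℝ ((m : ℤ) + 1)).eval y - (Chebyshev.T ℝ (m : ℤ)).eval y|
        ≤ 2 * |y| * |(Chebyshev.T ℝ ((m : ℤ) + 1)).eval y| + |(Chebyshev.T ℝ (m : ℤ)).eval y| := by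
      refine (abs_sub _ _).trans ?_
      rw [abs_mul, abs_mul, abs_two]
    refine h3.trans ?_
    have ha := abs_nonneg y
    have hp : (0 : ℝ) ≤ (1 + 2 * |y|) ^ m := by positivity
    calc 2 * |y| * |(Chebyshev.T ℝ ((m : ℤ) + 1)).eval y| + |(Chebyshev.T ℝ (m : ℤ)).eval y|
        ≤ 2 * |y| * (1 + 2 * |y|) ^ (m + 1) + (1 + 2 * |y|) ^ m := by
          apply add_le_add (mul_le_mul_of_nonneg_left h1 (by positivity)) h2
      _ = (1 + 2 * |y|) ^ m * (2 * |y| * (1 + 2 * |y|) + 1) := by ring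
      _ ≤ (1 + 2 * |y|) ^ m * (1 + 2 * |y|) ^ 2 := by
          apply mul_le_mul_of_nonneg_left _ hp
          nlinarith
      _ = (1 + 2 * |y|) ^ (m + 2) := by ring

/-- A polynomial of degree at most `m` with value `1` at `0`, bounded by `1` on `[0, N]` and by
`ε` on `[g, N]`, as soon as `m ≥ √(N/g) log (2/ε)`. -/
theorem exists_cheb {N g ε : ℝ} (hg : 0 < g) (hgN : g ≤ N) (hε : 0 < ε) {m : ℕ}
    (hm : Real.sqrt (N / g) * Real.log (2 / ε) ≤ m) :
    ∃ P : ℝ[X], P.natDegree ≤ m ∧ P.eval 0 = 1 ∧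
      (∀ u, 0 ≤ u → u ≤ N → |P.eval u| ≤ 1) ∧ (∀ u, g ≤ u → u ≤ N → |P.eval u| ≤ ε) ∧
      ∀ u, 0 ≤ u → |P.eval u| ≤ (7 + 8 * (u / N)) ^ m := by
  have hN : 0 < N := hg.trans_le hgN
  set h : ℝ := g / N with hh
  have h0 : 0 < h := by positivity
  have h1 : h ≤ 1 := by rw [hh, div_le_one hN]; exact hgN
  set T0 : ℝ := (Chebyshev.T ℝ m).eval (1 + 2 * h) with hT0
  have hT1 : 1 ≤ T0 := Chebyshev.one_le_eval_T_real m (by linarith)
  have hT2 : 1 / ε ≤ T0 := by
    refine le_trans ?_ (T_ge h0.le h1 m)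
    have e1 : Real.log (2 / ε) ≤ m * Real.sqrt h := by
      have e2 : Real.sqrt (N / g) * Real.sqrt h = 1 := by
        rw [← Real.sqrt_mul (by positivity), hh]
        rw [div_mul_div_comm, mul_comm N g, div_self (by positivity), Real.sqrt_one]
      have e3 := mul_le_mul_of_nonneg_right hm (Real.sqrt_nonneg h)
      have e4 : Real.sqrt (N / g) * Real.log (2 / ε) * Real.sqrt h = Real.log (2 / ε) := by
        rw [mul_right_comm, e2, one_mul]
      linarith
    have e5 : 2 / ε ≤ Real.exp (m * Real.sqrt h) := by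
      have := Real.exp_le_exp.2 e1
      rwa [Real.exp_log (by positivity)] at this
    have e6 : 1 / ε = (2 / ε) / 2 := by ring
    rw [e6]
    linarith
  set L : ℝ[X] := C (1 + 2 * h) - C ((2 + 2 * h) / N) * X with hL
  refine ⟨C T0⁻¹ * (Chebyshev.T ℝ m).comp L, ?_, ?_, ?_, ?_, ?_⟩
  · refine (natDegree_C_mul_le _ _).trans ?_
    refine natDegree_comp_le.trans ?_
    have e1 : (Chebyshev.T ℝ (m : ℤ)).natDegree = m := by
      rw [Chebyshev.natDegree_T]; simp
    have e2 : L.natDegree ≤ 1 := by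
      rw [hL]
      refine (natDegree_sub_le _ _).trans (max_le ((natDegree_C _).le.trans (Nat.zero_le 1)) ?_)
      refine (natDegree_C_mul_le _ _).trans natDegree_X_le
    rw [e1]
    calc m * L.natDegree ≤ m * 1 := Nat.mul_le_mul_left _ e2
      _ = m := mul_one m
  · have : L.eval 0 = 1 + 2 * h := by simp [hL]
    rw [eval_mul, eval_C, eval_comp, this, ← hT0]
    exact inv_mul_cancel₀ (by linarith)
  · intro u hu0 huN
    have e1 : L.eval u = 1 + 2 * h - (2 + 2 * h) / N * u := by simp [hL]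
    have e2 : (2 + 2 * h) / N * u ≤ 2 + 2 * h := by
      rw [div_mul_eq_mul_div, div_le_iff₀ hN]
      apply mul_le_mul_of_nonneg_left huN (by linarith)
    have e3 : 0 ≤ (2 + 2 * h) / N * u := by positivity
    rw [eval_mul, eval_C, eval_comp, e1, abs_mul, abs_inv, abs_of_pos (by linarith : 0 < T0)]
    rw [inv_mul_le_iff₀ (by linarith), mul_one]
    exact abs_T_le h0.le m (by linarith) (by linarith)
  · intro u hu0 huN
    have e1 : L.eval u = 1 + 2 * h - (2 + 2 * h) / N * u := by simp [hL]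
    have e2 : (2 + 2 * h) / N * u ≤ 2 + 2 * h := by
      rw [div_mul_eq_mul_div, div_le_iff₀ hN]
      apply mul_le_mul_of_nonneg_left huN (by linarith)
    have e3 : 2 * h ≤ (2 + 2 * h) / N * u := by
      have : 2 * h = 2 / N * g := by rw [hh]; ring
      rw [this]
      apply mul_le_mul _ hu0 hg.le (by positivity)
      apply div_le_div_of_nonneg_right _ hN.le
      linarith
    rw [eval_mul, eval_C, eval_comp, e1, abs_mul, abs_inv, abs_of_pos (by linarith : 0 < T0)]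
    have e4 : |(Chebyshev.T ℝ m).eval (1 + 2 * h - (2 + 2 * h) / N * u)| ≤ 1 :=
      Chebyshev.abs_eval_T_real_le_one m (abs_le.2 ⟨by linarith, by linarith⟩)
    have e5 : T0⁻¹ ≤ ε := by
      rw [inv_le_comm₀ (by linarith) hε, ← one_div]; exact hT2
    calc T0⁻¹ * |(Chebyshev.T ℝ m).eval (1 + 2 * h - (2 + 2 * h) / N * u)| ≤ T0⁻¹ * 1 :=
          mul_le_mul_of_nonneg_left e4 (by positivity)
      _ ≤ ε := by rw [mul_one]; exact e5
  · intro u hu0
    have e1 : L.eval u = 1 + 2 * h - (2 + 2 * h) / N * u := by simp [hL]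
    rw [eval_mul, eval_C, eval_comp, e1, abs_mul, abs_inv, abs_of_pos (by linarith : 0 < T0)]
    have e2 : |1 + 2 * h - (2 + 2 * h) / N * u| ≤ 3 + 4 * (u / N) := by
      have e3 : 0 ≤ (2 + 2 * h) / N * u := by positivity
      have e4 : (2 + 2 * h) / N * u ≤ 4 * (u / N) := by
        have : (2 + 2 * h) / N * u = (2 + 2 * h) * (u / N) := by ring
        rw [this]
        apply mul_le_mul_of_nonneg_right _ (by positivity)
        linarith
      rw [abs_le]
      constructor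
      · have : 0 ≤ u / N := by positivity
        linarith
      · have : 0 ≤ u / N := by positivity
        linarith
    have e5 : T0⁻¹ ≤ 1 := inv_le_one_of_one_le₀ hT1
    calc T0⁻¹ * |(Chebyshev.T ℝ m).eval (1 + 2 * h - (2 + 2 * h) / N * u)|
        ≤ 1 * (1 + 2 * |1 + 2 * h - (2 + 2 * h) / N * u|) ^ m :=
          mul_le_mul e5 (abs_T_le_pow _ m) (abs_nonneg _) zero_le_one
      _ ≤ (7 + 8 * (u / N)) ^ m := by
          rw [one_mul]
          apply pow_le_pow_left₀ (by positivity)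
          linarith

end DeckB
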