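import Pool.Agent.DeckA.Defs

/-!
# The counting function of a binary string
-/

namespace DeckB

/-- The number of ones among the first `t` letters of the string `x`. -/
def ones {n : ℕ} (x : Fin n → Bool) (t : ℕ) : ℕ :=
  (Finset.univ.filter fun i : Fin n => i.1 < t ∧ x i = true).card

end DeckB
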