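import Pool.Agent.DeckB.Ones

/-!
# Digital polynomials
-/

namespace DeckB

open DeckA Polynomial

lemma I_true_add_I_false (h : List Bool → ℝ) (w : List Bool) :
    I true h w + I false h w = ∑ j ∈ Finset.range w.length, h (w.drop (j + 1)) := by
  induction w with
  | nil => simp [I]
  | cons d w ih =>
    rw [List.length_cons, Finset.sum_range_succ', I, I]
    simp only [List.drop_succ_cons, List.drop_zero]
    rw [← ih]
    cases d <;> simp <;> ring

lemma ones_step {n : ℕ} (x : Fin n → Bool) (i : Fin n) :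
    ones x (i.1 + 1) = ones x i.1 + if x i = true then 1 else 0 := by
  rw [ones_eq_take, ones_eq_take, List.take_add_one, cnt_true_append]
  congr 1
  have : (List.ofFn x)[i.1]? = some (x i) := by
    rw [List.getElem?_eq_getElem (by simp)]
    simp
  rw [this]
  cases x i <;> simp

lemma eq_of_ones {n : ℕ} {x y : Fin n → Bool} (h : ∀ t ≤ n, ones x t = ones y t) : x = y := by
  funext i
  have h1 := ones_step x i
  have h2 := ones_step y i
  rw [h _ i.2, h _ i.2.le] at h1
  cases hx : x i <;> cases hy : y i <;> simp_all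

/-- Words that follow a polynomial curve as closely as integers can. -/
theorem digital {n k d : ℕ} (hd : 1 ≤ d) (hk : d + 2 ≤ k) (hkn : k ≤ n) (x : Fin n → Bool)
    (φ : ℝ[X]) (hφ : φ.natDegree ≤ d)
    (h : ∀ t : ℕ, 0 < t → t < n → |(ones x t : ℝ) - φ.eval (t : ℝ)| < 1 / 2) :
    Reconstructible k x := by
  intro y hy
  have hc := cnt_eq_of_deck hkn hy
  set N : ℕ := cnt [true] (List.ofFn x) with hN
  have hN' : cnt [true] (List.ofFn y) = N := hc [true] (by simp; omega)
  set ψ : ℝ[X] := φ.comp (C (n : ℝ) - X) with hψ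
  have hψd : ψ.natDegree ≤ d := by
    rw [hψ]
    refine natDegree_comp_le.trans ?_
    have : (C (n : ℝ) - X : ℝ[X]).natDegree ≤ 1 := by
      refine (natDegree_sub_le _ _).trans (max_le ?_ natDegree_X_le)
      rw [natDegree_C]; exact Nat.zero_le _
    calc φ.natDegree * (C (n : ℝ) - X : ℝ[X]).natDegree ≤ d * 1 := Nat.mul_le_mul hφ this
      _ = d := mul_one d
  let a : List Bool → ℝ := (fun _ => (N : ℝ)) - fun w => (cnt [true] w : ℝ)
  let q : List Bool → ℝ := a * a - (2 : ℝ) • (a * fun w => ψ.eval (w.length : ℝ))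
  have ha : a ∈ PolR 1 := sub_mem (const_mem _ _) ones_mem
  have hq : q ∈ PolR (d + 1) := by
    refine sub_mem (PolR_mono (by omega) (mul_mem ha ha)) (Submodule.smul_mem _ _ ?_)
    rw [add_comm d 1]
    exact mul_mem ha (poly_len_mem ψ hψd)
  have hF : I true q + I false q ∈ PolR (d + 2) := add_mem (I_mem _ hq) (I_mem _ hq)
  have hval : ∀ z : Fin n → Bool, cnt [true] (List.ofFn z) = N →
      (I true q + I false q) (List.ofFn z) = ∑ j ∈ Finset.range n,
        ((ones z (j + 1) : ℝ) ^ 2 - 2 * (ones z (j + 1) * φ.eval ((j + 1 : ℕ) : ℝ))) := by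
    intro z hz
    rw [Pi.add_apply, I_true_add_I_false, List.length_ofFn]
    apply Finset.sum_congr rfl
    intro j hj
    rw [Finset.mem_range] at hj
    have h1 := ones_add_drop z (j + 1)
    rw [hz] at h1
    have h2 : ((List.ofFn z).drop (j + 1)).length = n - (j + 1) := by simp
    have h3 : ψ.eval (((List.ofFn z).drop (j + 1)).length : ℝ) = φ.eval ((j + 1 : ℕ) : ℝ) := by
      rw [h2, hψ, eval_comp, Nat.cast_sub (by omega)]
      simp
    have h4 : a ((List.ofFn z).drop (j + 1)) = ones z (j + 1) := by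
      simp only [a, Pi.sub_apply]
      rw [← h1]
      push_cast
      ring
    simp only [q, Pi.sub_apply, Pi.mul_apply, Pi.smul_apply, smul_eq_mul]
    rw [h3, h4]
    ring
  have he := eval_eq (fun z hz => hc z (hz.trans hk)) hF
  rw [hval x rfl, hval y hN'] at he
  have hterm : ∀ j ∈ Finset.range n,
      (ones x (j + 1) : ℝ) ^ 2 - 2 * (ones x (j + 1) * φ.eval ((j + 1 : ℕ) : ℝ))
      ≤ (ones y (j + 1) : ℝ) ^ 2 - 2 * (ones y (j + 1) * φ.eval ((j + 1 : ℕ) : ℝ)) ∧
      ((ones x (j + 1) : ℝ) ^ 2 - 2 * (ones x (j + 1) * φ.eval ((j + 1 : ℕ) : ℝ))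
      = (ones y (j + 1) : ℝ) ^ 2 - 2 * (ones y (j + 1) * φ.eval ((j + 1 : ℕ) : ℝ)) →
        ones x (j + 1) = ones y (j + 1)) := by
    intro j hj
    rw [Finset.mem_range] at hj
    rcases Nat.lt_or_ge (j + 1) n with hjn | hjn
    · have h1 := h (j + 1) (by omega) hjn
      by_cases hxy : ones x (j + 1) = ones y (j + 1)
      · rw [hxy]; exact ⟨le_rfl, fun _ => rfl⟩
      · have h2 : (1 : ℝ) ≤ |(ones y (j + 1) : ℝ) - ones x (j + 1)| := by
          have : (1 : ℤ) ≤ |(ones y (j + 1) : ℤ) - ones x (j + 1)| := by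
            apply Int.one_le_abs
            intro h0
            apply hxy
            omega
          exact_mod_cast this
        have h3 : (ones x (j + 1) : ℝ) ^ 2 - 2 * (ones x (j + 1) * φ.eval ((j + 1 : ℕ) : ℝ))
            < (ones y (j + 1) : ℝ) ^ 2 - 2 * (ones y (j + 1) * φ.eval ((j + 1 : ℕ) : ℝ)) := by
          generalize (ones x (j + 1) : ℝ) = u at h1 h2 ⊢
          generalize (ones y (j + 1) : ℝ) = v at h2 ⊢
          generalize φ.eval ((j + 1 : ℕ) : ℝ) = s at h1 ⊢
          rw [abs_lt] at h1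
          rcases le_abs.1 h2 with h4 | h4
          · nlinarith
          · nlinarith
        exact ⟨h3.le, fun h4 => absurd h4 h3.ne⟩
    · have h0 : j + 1 = n := by omega
      have hx : ones x n = N := by
        have := ones_add_drop x n
        rw [List.drop_eq_nil_of_le (by simp), cnt_cons_nil] at this
        omega
      have hy' : ones y n = N := by
        have := ones_add_drop y n
        rw [List.drop_eq_nil_of_le (by simp), cnt_cons_nil] at this
        omega
      rw [h0, hx, hy']
      exact ⟨le_rfl, fun _ => rfl⟩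
  have hall := (Finset.sum_eq_sum_iff_of_le (fun j hj => (hterm j hj).1)).1 he.symm
  symm
  apply eq_of_ones
  intro t ht
  rcases Nat.eq_zero_or_pos t with h0 | h0
  · rw [h0, ones_zero, ones_zero]
  · obtain ⟨j, rfl⟩ : ∃ j, t = j + 1 := ⟨t - 1, by omega⟩
    have hj : j ∈ Finset.range n := Finset.mem_range.2 (by omega)
    exact (hterm j hj).2 (hall j hj)

end DeckB
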