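import Mathlib
import Pool.Agent.DeckA.Pol

/-!
# The filtered algebra of scattered subword counts over the reals
-/

namespace DeckB

open DeckA

/-- The real functions on words spanned by the counts of words of length at most `d`. -/
def PolR (d : ℕ) : Submodule ℝ (List Bool → ℝ) :=
  Submodule.span ℝ {f | ∃ z : List Bool, z.length ≤ d ∧ f = fun w => (cnt z w : ℝ)}

lemma cnt_mem {z : List Bool} {d : ℕ} (h : z.length ≤ d) :
    (fun w => (cnt z w : ℝ)) ∈ PolR d :=
  Submodule.subset_span ⟨z, h, rfl⟩

lemma PolR_mono {a b : ℕ} (h : a ≤ b) : PolR a ≤ PolR b := by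
  apply Submodule.span_mono
  rintro f ⟨z, hz, rfl⟩
  exact ⟨z, hz.trans h, rfl⟩

/-- The summation operator: `(I s h)(w)` is the sum of `h` over the suffixes `v` of `w` for which
`s :: v` is also a suffix of `w`. -/
def I (s : Bool) (h : List Bool → ℝ) : List Bool → ℝ
  | [] => 0
  | d :: w => I s h w + if s = d then h w else 0

lemma I_cnt (s : Bool) (z : List Bool) :
    I s (fun w => (cnt z w : ℝ)) = fun w => (cnt (s :: z) w : ℝ) := by
  funext w
  induction w with
  | nil => simp [I]
  | cons d w ih =>
    rw [I, ih, cnt_cons_cons]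
    push_cast
    congr 1

lemma I_add (s : Bool) (f g : List Bool → ℝ) : I s (f + g) = I s f + I s g := by
  funext w
  induction w with
  | nil => simp [I]
  | cons d w ih =>
    simp only [I, Pi.add_apply] at ih ⊢
    rw [ih]
    split_ifs <;> ring

lemma I_smul (s : Bool) (c : ℝ) (f : List Bool → ℝ) : I s (c • f) = c • I s f := by
  funext w
  induction w with
  | nil => simp [I]
  | cons d w ih =>
    simp only [I, Pi.smul_apply, smul_eq_mul] at ih ⊢
    rw [ih]
    split_ifs <;> ring

lemma I_zero (s : Bool) : I s 0 = 0 := by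
  have := I_smul s 0 0
  simpa using this

lemma I_mul (s t : Bool) (f g : List Bool → ℝ) :
    I s f * I t g = I s (f * I t g) + I t (I s f * g) + if s = t then I s (f * g) else 0 := by
  funext w
  induction w with
  | nil =>
    by_cases h : s = t <;> simp [I, h]
  | cons d w ih =>
    by_cases h : s = t
    · subst h
      simp only [I, Pi.mul_apply, Pi.add_apply, if_true] at ih ⊢
      by_cases hd : s = d
      · simp only [hd, if_true] at ih ⊢
        linear_combination ih
      · simp only [hd, if_false] at ih ⊢
        linear_combination ih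
    · simp only [I, Pi.mul_apply, Pi.add_apply, h, if_false, Pi.zero_apply] at ih ⊢
      by_cases hd : s = d
      · have ht : ¬ t = d := fun h' => h (hd.trans h'.symm)
        simp only [hd, ht, if_true, if_false] at ih ⊢
        linear_combination ih
      · simp only [hd, if_false] at ih ⊢
        by_cases ht : t = d
        · simp only [ht, if_true] at ih ⊢
          linear_combination ih
        · simp only [ht, if_false] at ih ⊢
          linear_combination ih

lemma I_mem {d : ℕ} (s : Bool) {f : List Bool → ℝ} (hf : f ∈ PolR d) : I s f ∈ PolR (d + 1) := by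
  induction hf using Submodule.span_induction with
  | mem f hf =>
    obtain ⟨z, hz, rfl⟩ := hf
    rw [I_cnt]
    exact cnt_mem (by simpa using hz)
  | zero => rw [I_zero]; exact zero_mem _
  | add f g _ _ hf hg => rw [I_add]; exact add_mem hf hg
  | smul c f _ hf => rw [I_smul]; exact Submodule.smul_mem _ _ hf

lemma cnt_mul_mem : ∀ (n : ℕ) (u v : List Bool), u.length + v.length = n →
    (fun w => (cnt u w : ℝ)) * (fun w => (cnt v w : ℝ)) ∈ PolR n := by
  intro n
  induction n using Nat.strong_induction_on with
  | _ n ih =>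
    intro u v hn
    match u, v with
    | [], v =>
      have : (fun w => (cnt [] w : ℝ)) * (fun w => (cnt v w : ℝ)) = fun w => (cnt v w : ℝ) := by
        funext w; simp
      rw [this]
      exact cnt_mem (by simp at hn; omega)
    | u, [] =>
      have : (fun w => (cnt u w : ℝ)) * (fun w => (cnt [] w : ℝ)) = fun w => (cnt u w : ℝ) := by
        funext w; simp
      rw [this]
      exact cnt_mem (by simp at hn; omega)
    | s :: u, t :: v =>
      simp only [List.length_cons] at hn
      have h1 : I s ((fun w => (cnt u w : ℝ)) * I t (fun w => (cnt v w : ℝ))) ∈ PolR n := by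
        rw [I_cnt]
        have := I_mem s (ih (u.length + (t :: v).length) (by simp; omega) u (t :: v) rfl)
        exact PolR_mono (by simp; omega) this
      have h2 : I t (I s (fun w => (cnt u w : ℝ)) * (fun w => (cnt v w : ℝ))) ∈ PolR n := by
        rw [I_cnt]
        have := I_mem t (ih ((s :: u).length + v.length) (by simp; omega) (s :: u) v rfl)
        exact PolR_mono (by simp; omega) this
      have h3 : I s ((fun w => (cnt u w : ℝ)) * (fun w => (cnt v w : ℝ))) ∈ PolR n := by
        have := I_mem s (ih (u.length + v.length) (by omega) u v rfl)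
        exact PolR_mono (by omega) this
      rw [← I_cnt, ← I_cnt, I_mul]
      refine add_mem (add_mem h1 h2) ?_
      split_ifs
      · exact h3
      · exact zero_mem _

lemma mul_mem {a b : ℕ} {f g : List Bool → ℝ} (hf : f ∈ PolR a) (hg : g ∈ PolR b) :
    f * g ∈ PolR (a + b) := by
  induction hf using Submodule.span_induction with
  | mem f hf =>
    obtain ⟨u, hu, rfl⟩ := hf
    induction hg using Submodule.span_induction with
    | mem g hg =>
      obtain ⟨v, hv, rfl⟩ := hg
      exact PolR_mono (by omega) (cnt_mul_mem _ u v rfl)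
    | zero => rw [mul_zero]; exact zero_mem _
    | add f g _ _ hf hg => rw [mul_add]; exact add_mem hf hg
    | smul c f _ hf => rw [mul_smul_comm]; exact Submodule.smul_mem _ _ hf
  | zero => rw [zero_mul]; exact zero_mem _
  | add f g _ _ hf hg => rw [add_mul]; exact add_mem hf hg
  | smul c f _ hf => rw [smul_mul_assoc]; exact Submodule.smul_mem _ _ hf

lemma one_mem (a : ℕ) : (1 : List Bool → ℝ) ∈ PolR a := by
  have : (1 : List Bool → ℝ) = fun w => (cnt [] w : ℝ) := by funext w; simp
  rw [this]; exact cnt_mem (by simp)

lemma const_mem (a : ℕ) (c : ℝ) : (fun _ : List Bool => c) ∈ PolR a := by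
  have : (fun _ : List Bool => c) = c • (1 : List Bool → ℝ) := by funext w; simp
  rw [this]; exact Submodule.smul_mem _ _ (one_mem a)

/-- Functions in `PolR k` are determined by the counts of words of length at most `k`. -/
lemma eval_eq {k : ℕ} {v w : List Bool} (h : ∀ z : List Bool, z.length ≤ k → cnt z v = cnt z w)
    {F : List Bool → ℝ} (hF : F ∈ PolR k) : F v = F w := by
  induction hF using Submodule.span_induction with
  | mem f hf =>
    obtain ⟨z, hz, rfl⟩ := hf
    simp only [h z hz]
  | zero => rfl
  | add f g _ _ hf hg => simp only [Pi.add_apply, hf, hg]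
  | smul c f _ hf => simp only [Pi.smul_apply, hf]

lemma pow_mem {d : ℕ} {g : List Bool → ℝ} (hg : g ∈ PolR d) : ∀ i : ℕ, g ^ i ∈ PolR (i * d)
  | 0 => by rw [pow_zero]; exact one_mem _
  | i + 1 => by
    rw [pow_succ]
    have := mul_mem (pow_mem hg i) hg
    exact PolR_mono (by ring_nf; omega) this

/-- A polynomial of degree at most `e` in an element of `PolR d` is in `PolR (e * d)`. -/
lemma poly_mem {d e : ℕ} {g : List Bool → ℝ} (hg : g ∈ PolR d) (P : Polynomial ℝ)
    (hP : P.natDegree ≤ e) : (fun w => P.eval (g w)) ∈ PolR (e * d) := by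
  have h : (fun w => P.eval (g w)) = ∑ i ∈ Finset.range (e + 1), P.coeff i • g ^ i := by
    funext w
    rw [Polynomial.eval_eq_sum_range' (Nat.lt_succ_of_le hP)]
    simp [Finset.sum_apply]
  rw [h]
  refine Submodule.sum_mem _ (fun i hi => Submodule.smul_mem _ _ ?_)
  refine PolR_mono ?_ (pow_mem hg i)
  exact Nat.mul_le_mul_right _ (Nat.lt_succ_iff.1 (Finset.mem_range.1 hi))

lemma len_eq (w : List Bool) : w.length = cnt [true] w + cnt [false] w := by
  induction w with
  | nil => rfl
  | cons d w ih =>
    rw [List.length_cons, ih, cnt_cons_cons, cnt_cons_cons]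
    cases d <;> simp <;> omega

lemma len_mem : (fun w : List Bool => (w.length : ℝ)) ∈ PolR 1 := by
  have : (fun w : List Bool => (w.length : ℝ))
      = (fun w => (cnt [true] w : ℝ)) + fun w => (cnt [false] w : ℝ) := by
    funext w
    rw [Pi.add_apply, len_eq]
    push_cast
    ring
  rw [this]
  exact add_mem (cnt_mem (by simp)) (cnt_mem (by simp))

lemma ones_mem : (fun w : List Bool => (cnt [true] w : ℝ)) ∈ PolR 1 := cnt_mem (by simp)

/-- A polynomial of degree at most `e` in the length. -/
lemma poly_len_mem {e : ℕ} (P : Polynomial ℝ) (hP : P.natDegree ≤ e) :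
    (fun w : List Bool => P.eval (w.length : ℝ)) ∈ PolR e := by
  have := poly_mem len_mem P hP
  rwa [mul_one] at this

/-! ## The criterion -/

lemma I_append_ge (s : Bool) {h : List Bool → ℝ} (h0 : ∀ w, 0 ≤ h w) (w : List Bool) :
    ∀ y' : List Bool, I s h w ≤ I s h (y' ++ w)
  | [] => le_rfl
  | a :: y' => by
    rw [List.cons_append, I]
    have := I_append_ge s h0 w y'
    split_ifs
    · have := h0 (y' ++ w); linarith
    · linarith

lemma I_append_le (s c : Bool) (hsc : s ≠ c) {h : List Bool → ℝ} {η : ℝ} (hη : 0 ≤ η)
    (p : List Bool) : ∀ x' : List Bool,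
      (∀ v : List Bool, v <:+ (x' ++ c :: p) → p.length < v.length → h v ≤ η) →
      I s h (x' ++ c :: p) ≤ I s h p + x'.length * η
  | [], _ => by simp [I, hsc]
  | a :: x', hv => by
    have ih := I_append_le s c hsc hη p x' (fun v hv' hlt => hv v (hv'.trans (by simp)) hlt)
    have h1 : h (x' ++ c :: p) ≤ η := by
      apply hv
      · simp
      · simp; omega
    rw [List.cons_append, I]
    rw [List.length_cons]
    push_cast
    split_ifs
    · linarith
    · linarith

/-- **Criterion** (asymmetric form). -/
theorem crit_core {l : ℕ} {x' y' p : List Bool} {c c' : Bool} (hc : c ≠ c')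
    (h : ∀ z : List Bool, z.length ≤ 2 * l + 1 → cnt z (x' ++ c :: p) = cnt z (y' ++ c' :: p))
    {f : List Bool → ℝ} (hf : f ∈ PolR l) (hfp : f p = 1)
    (hfv : ∀ v : List Bool, v <:+ (x' ++ c :: p) → p.length < v.length →
      (f v) ^ 2 * ((x' ++ c :: p).length : ℝ) ≤ 1) : False := by
  have hF : I c' (f * f) ∈ PolR (2 * l + 1) := by
    rw [two_mul]
    exact I_mem c' (mul_mem hf hf)
  have hL : ((x' ++ c :: p).length : ℝ) = x'.length + (p.length + 1) := by
    simp
  have hLpos : (0 : ℝ) < ((x' ++ c :: p).length : ℝ) := by rw [hL]; positivity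
  have e1 := eval_eq h hF
  have e2 : I c' (f * f) (x' ++ c :: p)
      ≤ I c' (f * f) p + x'.length * (1 / ((x' ++ c :: p).length : ℝ)) := by
    apply I_append_le c' c (Ne.symm hc) (by positivity)
    intro v hv hlt
    rw [Pi.mul_apply, le_div_iff₀ hLpos, ← sq]
    exact hfv v hv hlt
  have e3 : I c' (f * f) p + 1 ≤ I c' (f * f) (y' ++ c' :: p) := by
    have := I_append_ge c' (h := f * f) (fun w => mul_self_nonneg _) (c' :: p) y'
    rw [I] at this
    simpa [hfp] using this
  have e4 : (x'.length : ℝ) * (1 / ((x' ++ c :: p).length : ℝ)) < 1 := by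
    rw [mul_one_div, div_lt_one hLpos, hL]
    have : (0 : ℝ) ≤ (p.length : ℝ) := Nat.cast_nonneg _
    linarith
  linarith

/-- **Criterion.**  If for every proper suffix `p` of `x` there is a function in `PolR l` which is
`1` at `p` and at most `|x|^(-1/2)` at all longer suffixes of `x`, then `x` is determined among the
words of its length by its counts of words of length at most `2 l + 1`. -/
theorem crit {l : ℕ} {x y : List Bool} (hlen : x.length = y.length)
    (H : ∀ p : List Bool, p <:+ x → ∃ f ∈ PolR l, f p = 1 ∧
      ∀ v : List Bool, v <:+ x → p.length < v.length → (f v) ^ 2 * (x.length : ℝ) ≤ 1)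
    (h : ∀ z : List Bool, z.length ≤ 2 * l + 1 → cnt z x = cnt z y) : x = y := by
  by_contra hne
  obtain ⟨x', y', p, c, c', hc, rfl, rfl⟩ := exists_last_diff hlen hne
  obtain ⟨f, hf, hfp, hfv⟩ := H p ((List.suffix_cons c p).trans (List.suffix_append _ _))
  exact crit_core hc h hf hfp hfv

/-- The criterion for strings and their decks. -/
theorem crit_deck {n k l : ℕ} (hk : 2 * l + 1 ≤ k) (hkn : k ≤ n) (x : Fin n → Bool)
    (H : ∀ p : List Bool, p <:+ List.ofFn x → ∃ f ∈ PolR l, f p = 1 ∧
      ∀ v : List Bool, v <:+ List.ofFn x → p.length < v.length → (f v) ^ 2 * (n : ℝ) ≤ 1) :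
    Reconstructible k x := by
  intro y hy
  have h := cnt_eq_of_deck hkn hy
  have : List.ofFn x = List.ofFn y := by
    apply crit (l := l) (by simp)
    · intro p hp
      simpa using H p hp
    · intro z hz
      exact (h z (hz.trans hk)).symm
  exact (List.ofFn_injective this).symm

end DeckB
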