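import Pool.Agent.DeckB.Defs
import Pool.Agent.DeckB.PolR

/-!
# The counting function and the suffixes
-/

namespace DeckB

open DeckA

lemma ones_succ {n : ℕ} (x : Fin (n + 1) → Bool) (t : ℕ) :
    ones x (t + 1) = (if x 0 = true then 1 else 0) + ones (fun i => x i.succ) t := by
  unfold ones
  rw [Finset.card_filter, Finset.card_filter, Fin.sum_univ_succ]
  simp

lemma ones_zero {n : ℕ} (x : Fin n → Bool) : ones x 0 = 0 := by
  simp [ones]

lemma cnt_true_append (a b : List Bool) : cnt [true] (a ++ b) = cnt [true] a + cnt [true] b := by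
  induction a with
  | nil => simp
  | cons d a ih =>
    rw [List.cons_append, cnt_cons_cons, cnt_cons_cons, ih, cnt_nil, cnt_nil]; omega

lemma ones_eq_take : ∀ {n : ℕ} (x : Fin n → Bool) (t : ℕ),
    ones x t = cnt [true] ((List.ofFn x).take t)
  | n, x, 0 => by rw [ones_zero]; simp
  | 0, x, t + 1 => by simp [ones]
  | n + 1, x, t + 1 => by
    rw [ones_succ, ones_eq_take (fun i => x i.succ) t, List.ofFn_succ, List.take_succ_cons,
      cnt_cons_cons]
    cases x 0 <;> simp [add_comm]

lemma ones_add_drop {n : ℕ} (x : Fin n → Bool) (t : ℕ) :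
    ones x t + cnt [true] ((List.ofFn x).drop t) = cnt [true] (List.ofFn x) := by
  rw [ones_eq_take, ← cnt_true_append, List.take_append_drop]

/-- The number of ones of a suffix. -/
lemma cnt_suffix {n : ℕ} (x : Fin n → Bool) {v : List Bool} (hv : v <:+ List.ofFn x) :
    v.length ≤ n ∧
      (cnt [true] v : ℝ) = cnt [true] (List.ofFn x) - (ones x (n - v.length) : ℝ) := by
  have h1 : v.length ≤ n := by simpa using hv.length_le
  refine ⟨h1, ?_⟩
  have h2 : v = (List.ofFn x).drop (n - v.length) := by
    have := List.suffix_iff_eq_drop.1 hv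
    simpa using this
  have h3 := ones_add_drop x (n - v.length)
  rw [← h2] at h3
  rw [← h3]
  push_cast
  ring

end DeckB
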