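import Pool.Agent.DeckB.Cheb
import Pool.Agent.DeckB.Ones

/-!
# Strings of low discrepancy
-/

namespace DeckB

open DeckA Polynomial

lemma sq_mul_le {a n : ℝ} (hn : 0 < n) (h : |a| ≤ 1 / Real.sqrt n) : a ^ 2 * n ≤ 1 := by
  have h1 : 0 < Real.sqrt n := Real.sqrt_pos.2 hn
  have h2 : |a| * Real.sqrt n ≤ 1 := by
    rwa [le_div_iff₀ h1] at h
  have h3 : (|a| * Real.sqrt n) ^ 2 ≤ 1 := by
    have : 0 ≤ |a| * Real.sqrt n := by positivity
    nlinarith
  rwa [mul_pow, sq_abs, Real.sq_sqrt hn.le] at h3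

/-- The test functions built from a statistic `G` and the length. -/
theorem exists_test {x : List Bool} {n d Q m₁ m₂ : ℕ} {R δ : ℝ} (hx : x.length = n) (hn : 1 ≤ n)
    (hδ : 0 < δ) (hδR : δ ≤ R) (hQ : 1 ≤ Q) (hQn : Q ≤ n)
    (hm₁ : R / δ * Real.log (2 * Real.sqrt n) ≤ m₁)
    (hm₂ : Real.sqrt (n / Q) * Real.log (2 * Real.sqrt n) ≤ m₂)
    {p : List Bool} {G : List Bool → ℝ} (hG : G ∈ PolR d) (hGp : G p = 0)
    (hG1 : ∀ v : List Bool, v <:+ x → p.length < v.length → |G v| ≤ R)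
    (hG2 : ∀ v : List Bool, v <:+ x → p.length < v.length → v.length < p.length + Q → δ ≤ |G v|) :
    ∃ f ∈ PolR (m₁ * (d + d) + m₂), f p = 1 ∧
      ∀ v : List Bool, v <:+ x → p.length < v.length → (f v) ^ 2 * (n : ℝ) ≤ 1 := by
  have hn0 : (0 : ℝ) < n := by exact_mod_cast hn
  have hQ0 : (0 : ℝ) < Q := by exact_mod_cast hQ
  have hs : 0 < Real.sqrt n := Real.sqrt_pos.2 hn0
  have hR : 0 < R := hδ.trans_le hδR
  have heps : 2 / (1 / Real.sqrt n) = 2 * Real.sqrt n := by
    rw [div_div_eq_mul_div, div_one]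
  obtain ⟨P₁, hd1, h01, hb1, he1, -⟩ := exists_cheb (N := R ^ 2) (g := δ ^ 2)
    (ε := 1 / Real.sqrt n) (by positivity) (pow_le_pow_left₀ hδ.le hδR 2) (by positivity)
    (m := m₁) (by
      rw [heps, ← div_pow, Real.sqrt_sq (by positivity)]
      exact hm₁)
  obtain ⟨P₂, hd2, h02, hb2, he2, -⟩ := exists_cheb (N := n) (g := Q)
    (ε := 1 / Real.sqrt n) hQ0 (by exact_mod_cast hQn) (by positivity)
    (m := m₂) (by rw [heps]; exact hm₂)
  refine ⟨(fun w => P₁.eval ((G * G) w)) *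
    fun w => (P₂.comp (X - C (p.length : ℝ))).eval (w.length : ℝ), ?_, ?_, ?_⟩
  · refine mul_mem (poly_mem (mul_mem hG hG) P₁ hd1) (poly_len_mem _ ?_)
    refine natDegree_comp_le.trans ?_
    rw [natDegree_X_sub_C, mul_one]
    exact hd2
  · simp [hGp, h01, h02]
  · intro v hv hlt
    have hlen : v.length ≤ n := by rw [← hx]; exact hv.length_le
    have hu0 : (0 : ℝ) ≤ (v.length : ℝ) - p.length := by
      have : (p.length : ℝ) ≤ v.length := by exact_mod_cast hlt.le
      linarith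
    have hun : (v.length : ℝ) - p.length ≤ n := by
      have h1 : (v.length : ℝ) ≤ n := by exact_mod_cast hlen
      have h2 : (0 : ℝ) ≤ p.length := Nat.cast_nonneg _
      linarith
    have hG1' : G v * G v ≤ R ^ 2 := by
      have := hG1 v hv hlt
      rw [← sq, ← sq_abs]
      exact pow_le_pow_left₀ (abs_nonneg _) this 2
    apply sq_mul_le hn0
    simp only [Pi.mul_apply, eval_comp, eval_sub, eval_X, eval_C]
    rw [abs_mul]
    rcases Nat.lt_or_ge v.length (p.length + Q) with hc | hc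
    · have h1 : |P₁.eval (G v * G v)| ≤ 1 / Real.sqrt n := by
        apply he1 _ _ hG1'
        have := hG2 v hv hlt hc
        rw [← sq, ← sq_abs (G v)]
        exact pow_le_pow_left₀ hδ.le this 2
      have h2 := hb2 _ hu0 hun
      calc _ ≤ 1 / Real.sqrt n * 1 :=
            mul_le_mul h1 h2 (abs_nonneg _) (by positivity)
        _ = _ := mul_one _
    · have h1 : |P₁.eval (G v * G v)| ≤ 1 := hb1 _ (mul_self_nonneg _) hG1'
      have h2 : |P₂.eval ((v.length : ℝ) - p.length)| ≤ 1 / Real.sqrt n := by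
        apply he2 _ _ hun
        have : ((p.length + Q : ℕ) : ℝ) ≤ v.length := by exact_mod_cast hc
        push_cast at this
        linarith
      calc _ ≤ 1 * (1 / Real.sqrt n) :=
            mul_le_mul h1 h2 (abs_nonneg _) zero_le_one
        _ = _ := one_mul _

lemma log_two_sqrt {n : ℕ} (hn : 2 ≤ n) : Real.log (2 * Real.sqrt n) ≤ 3 / 2 * Real.log n := by
  have hn0 : (0 : ℝ) < n := by exact_mod_cast (by omega : 0 < n)
  rw [Real.log_mul two_ne_zero (Real.sqrt_ne_zero'.2 hn0), Real.log_sqrt hn0.le]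
  have : Real.log 2 ≤ Real.log n := Real.log_le_log two_pos (by exact_mod_cast hn)
  linarith

lemma log_two_sqrt_pos {n : ℕ} (hn : 2 ≤ n) : 0 ≤ Real.log (2 * Real.sqrt n) := by
  apply Real.log_nonneg
  have : (1 : ℝ) ≤ Real.sqrt n := by
    rw [Real.one_le_sqrt]; exact_mod_cast (by omega : 1 ≤ n)
  linarith

lemma half_le_log {n : ℕ} (hn : 2 ≤ n) : (1 : ℝ) / 2 ≤ Real.log n := by
  have h1 : Real.log 2 ≤ Real.log n := Real.log_le_log two_pos (by exact_mod_cast hn)
  have := Real.log_two_gt_d9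
  linarith

/-- **Main theorem**, list form: strings with a good statistic. -/
theorem recon_of_stat {n d Q k : ℕ} {R δ : ℝ} (hn : 2 ≤ n) (hd : 1 ≤ d)
    (hδ : 0 < δ) (hδR : δ ≤ R) (hQ : 1 ≤ Q) (hQn : Q ≤ n) (x : Fin n → Bool)
    (H : ∀ p : List Bool, p <:+ List.ofFn x → ∃ G ∈ PolR d, G p = 0 ∧
      (∀ v : List Bool, v <:+ List.ofFn x → p.length < v.length → |G v| ≤ R) ∧
      (∀ v : List Bool, v <:+ List.ofFn x → p.length < v.length → v.length < p.length + Q →
        δ ≤ |G v|))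
    (hk : 24 * (d * R / δ + Real.sqrt (n / Q)) * Real.log n ≤ k) (hkn : k ≤ n) :
    Reconstructible k x := by
  have hn0 : (0 : ℝ) < n := by exact_mod_cast (by omega : 0 < n)
  have hR : 0 < R := hδ.trans_le hδR
  have hQ0 : (0 : ℝ) < Q := by exact_mod_cast hQ
  have hd0 : (1 : ℝ) ≤ d := by exact_mod_cast hd
  set L : ℝ := Real.log (2 * Real.sqrt n) with hL
  have hL0 : 0 ≤ L := log_two_sqrt_pos hn
  have hL1 : L ≤ 3 / 2 * Real.log n := log_two_sqrt hn
  set m₁ : ℕ := ⌈R / δ * L⌉₊ with hm₁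
  set m₂ : ℕ := ⌈Real.sqrt (n / Q) * L⌉₊ with hm₂
  have e1 : (m₁ : ℝ) ≤ R / δ * L + 1 := (Nat.ceil_lt_add_one (by positivity)).le
  have e2 : (m₂ : ℝ) ≤ Real.sqrt (n / Q) * L + 1 := (Nat.ceil_lt_add_one (by positivity)).le
  have hx : (List.ofFn x).length = n := by simp
  apply crit_deck (l := m₁ * (d + d) + m₂) _ hkn
  · intro p hp
    obtain ⟨G, hG, hGp, hG1, hG2⟩ := H p hp
    exact exists_test hx (by omega) hδ hδR hQ hQn (Nat.le_ceil _) (Nat.le_ceil _) hG hGp hG1 hG2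
  · have h1 : (1 : ℝ) ≤ R / δ := by rw [one_le_div hδ]; exact hδR
    have h2 : (1 : ℝ) ≤ Real.sqrt (n / Q) := by
      rw [Real.one_le_sqrt, one_le_div hQ0]; exact_mod_cast hQn
    have h3 := half_le_log hn
    have h4 : d * R / δ = d * (R / δ) := by ring
    rw [h4] at hk
    have e3 : ((2 * (m₁ * (d + d) + m₂) + 1 : ℕ) : ℝ) ≤ k := by
      refine le_trans ?_ hk
      push_cast
      set A : ℝ := R / δ with hA
      set B : ℝ := Real.sqrt (n / Q) with hB
      set l : ℝ := Real.log n with hl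
      have f1 : A * L ≤ 3 / 2 * (A * l) := by
        have := mul_le_mul_of_nonneg_left hL1 (by positivity : 0 ≤ A)
        linarith
      have f2 : B * L ≤ 3 / 2 * (B * l) := by
        have := mul_le_mul_of_nonneg_left hL1 (by positivity : 0 ≤ B)
        linarith
      have f3 : (1 : ℝ) / 2 ≤ A * l := by nlinarith
      have f4 : (1 : ℝ) / 2 ≤ B * l := by nlinarith
      have f5 : (m₁ : ℝ) ≤ 7 / 2 * (A * l) := by linarith
      have f6 : (m₂ : ℝ) ≤ 7 / 2 * (B * l) := by linarith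
      have f7 : (m₁ : ℝ) * (d + d) ≤ 7 * (d * (A * l)) := by
        have := mul_le_mul_of_nonneg_right f5 (by positivity : (0 : ℝ) ≤ d + d)
        linarith
      have f8 : 0 ≤ d * (A * l) := by positivity
      have f9 : (1 : ℝ) ≤ 2 * (B * l) := by linarith
      have f10 : 24 * (d * A + B) * l = 24 * (d * (A * l)) + 24 * (B * l) := by ring
      rw [f10]
      linarith
    exact_mod_cast e3

/-- **Strings near a polynomial curve.** -/
theorem recon_of_poly {n d Q k : ℕ} {R δ : ℝ} (hn : 2 ≤ n) (hd : 1 ≤ d)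
    (hδ : 0 < δ) (hδR : δ ≤ R) (hQ : 1 ≤ Q) (hQn : Q ≤ n) (x : Fin n → Bool)
    (φ : ℝ[X]) (hφ : φ.natDegree ≤ d) (hR : ∀ t : ℕ, t ≤ n → |(ones x t : ℝ) - φ.eval (t : ℝ)| ≤ R)
    (hδ' : ∀ s t : ℕ, s < t → t ≤ n → t < s + Q → ∀ a : ℤ,
      δ ≤ |φ.eval (t : ℝ) - φ.eval (s : ℝ) - a|)
    (hk : 48 * (d * R / δ + Real.sqrt (n / Q)) * Real.log n ≤ k) (hkn : k ≤ n) :
    Reconstructible k x := by
  have hR0 : 0 < R := hδ.trans_le hδR
  have hlog : 0 ≤ Real.log n := by have := half_le_log hn; linarith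
  apply recon_of_stat (R := 2 * R) (δ := δ) (d := d) (Q := Q) hn hd hδ (by linarith) hQ hQn x _ _ hkn
  · intro p hp
    set ψ : ℝ[X] := φ.comp (C (n : ℝ) - X) with hψ
    have hψd : ψ.natDegree ≤ d := by
      rw [hψ]
      refine natDegree_comp_le.trans ?_
      have : (C (n : ℝ) - X : ℝ[X]).natDegree ≤ 1 := by
        refine (natDegree_sub_le _ _).trans (max_le ?_ natDegree_X_le)
        rw [natDegree_C]; exact Nat.zero_le _
      calc φ.natDegree * (C (n : ℝ) - X : ℝ[X]).natDegree ≤ d * 1 := Nat.mul_le_mul hφ this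
        _ = d := mul_one d
    have hψe : ∀ v : List Bool, v <:+ List.ofFn x →
        ψ.eval (v.length : ℝ) = φ.eval (((n - v.length : ℕ) : ℝ)) := by
      intro v hv
      have := (cnt_suffix x hv).1
      rw [hψ, eval_comp, Nat.cast_sub this]
      simp
    -- the statistic
    refine ⟨(fun w => (cnt [true] w : ℝ)) + (fun w => ψ.eval (w.length : ℝ)) -
      (fun _ => (cnt [true] p : ℝ) + ψ.eval (p.length : ℝ)), ?_, ?_, ?_, ?_⟩
    · exact sub_mem (add_mem (PolR_mono hd ones_mem) (poly_len_mem ψ hψd)) (const_mem _ _)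
    · simp
    · intro v hv hlt
      obtain ⟨hv1, hv2⟩ := cnt_suffix x hv
      obtain ⟨hp1, hp2⟩ := cnt_suffix x hp
      simp only [Pi.sub_apply, Pi.add_apply]
      rw [hψe v hv, hψe p hp, hv2, hp2]
      have h1 := hR (n - v.length) (Nat.sub_le _ _)
      have h2 := hR (n - p.length) (Nat.sub_le _ _)
      rw [abs_le] at h1 h2 ⊢
      constructor <;> linarith
    · intro v hv hlt hvQ
      obtain ⟨hv1, hv2⟩ := cnt_suffix x hv
      obtain ⟨hp1, hp2⟩ := cnt_suffix x hp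
      simp only [Pi.sub_apply, Pi.add_apply]
      rw [hψe v hv, hψe p hp]
      have h1 := hδ' (n - v.length) (n - p.length) (by omega) (Nat.sub_le _ _) (by omega)
        ((cnt [true] v : ℤ) - (cnt [true] p : ℤ))
      rw [← abs_neg] at h1
      refine h1.trans (le_of_eq ?_)
      congr 1
      push_cast
      ring
  · refine le_trans ?_ hk
    have h1 : (d : ℝ) * (2 * R) / δ = 2 * (d * R / δ) := by ring
    rw [h1]
    have h2 : 0 ≤ (d : ℝ) * R / δ := by positivity
    have h3 : 0 ≤ Real.sqrt (n / Q) := Real.sqrt_nonneg _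
    apply mul_le_mul_of_nonneg_right _ hlog
    linarith

end DeckB
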