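import Pool.Agent.DeckB.PolR

/-!
# Right translations with bounds, and periodic words
-/

namespace DeckB

open DeckA

/-! ## The summation operators -/

/-- The sum over all proper suffixes. -/
def Sg (f : List Bool → ℝ) : List Bool → ℝ := I true f + I false f

lemma Sg_nil (f : List Bool → ℝ) : Sg f [] = 0 := by simp [Sg, I]

lemma Sg_cons (f : List Bool → ℝ) (a : Bool) (w : List Bool) : Sg f (a :: w) = Sg f w + f w := by
  cases a <;> simp [Sg, I] <;> ring

lemma I_nil (s : Bool) (f : List Bool → ℝ) : I s f [] = 0 := rfl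

lemma I_cons (s a : Bool) (f : List Bool → ℝ) (w : List Bool) :
    I s f (a :: w) = I s f w + if s = a then f w else 0 := rfl

lemma Sg_mem {d : ℕ} {f : List Bool → ℝ} (hf : f ∈ PolR d) : Sg f ∈ PolR (d + 1) :=
  add_mem (I_mem _ hf) (I_mem _ hf)

lemma I_append (s : Bool) (F : List Bool → ℝ) (r : List Bool) : ∀ z : List Bool,
    I s F (z ++ r) = I s (fun z => F (z ++ r)) z + I s F r
  | [] => by simp [I]
  | a :: z => by
    rw [List.cons_append, I_cons, I_cons, I_append s F r z]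
    ring

lemma Sg_append (F : List Bool → ℝ) (r z : List Bool) :
    Sg F (z ++ r) = Sg (fun z => F (z ++ r)) z + Sg F r := by
  simp only [Sg, Pi.add_apply]
  rw [I_append, I_append]
  ring

lemma abs_I_le {N : ℕ} {B : ℝ} (hB : 0 ≤ B) {F : List Bool → ℝ} (s : Bool)
    (hF : ∀ z : List Bool, z.length ≤ N → |F z| ≤ B) :
    ∀ z : List Bool, z.length ≤ N → |I s F z| ≤ z.length * B
  | [], _ => by simp [I]
  | a :: z, h => by
    rw [I_cons]
    have h' : z.length ≤ N := by simp only [List.length_cons] at h; omega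
    have ih := abs_I_le hB s hF z h'
    have h1 : |if s = a then F z else 0| ≤ B := by
      split_ifs
      · exact hF z h'
      · simpa using hB
    refine (abs_add_le _ _).trans ?_
    rw [List.length_cons]
    push_cast
    linarith

lemma abs_Sg_le {N : ℕ} {B : ℝ} {F : List Bool → ℝ}
    (hF : ∀ z : List Bool, z.length ≤ N → |F z| ≤ B) :
    ∀ z : List Bool, z.length ≤ N → |Sg F z| ≤ z.length * B
  | [], _ => by simp [Sg_nil]
  | a :: z, h => by
    rw [Sg_cons]
    have h' : z.length ≤ N := by simp only [List.length_cons] at h; omega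
    have ih := abs_Sg_le hF z h'
    have h1 := hF z h'
    refine (abs_add_le _ _).trans ?_
    rw [List.length_cons]
    push_cast
    linarith

/-! ## Right translations -/

lemma exists_snoc (d : Bool) (u : List Bool) :
    ∃ f ∈ PolR u.length, ∀ z : List Bool, f (z ++ [d]) = (cnt u z : ℝ) := by
  induction u using List.reverseRecOn with
  | nil => exact ⟨1, one_mem _, fun z => by simp⟩
  | append_singleton u c ih =>
    obtain ⟨f, hf, hfz⟩ := ih
    refine ⟨(fun w => (cnt (u ++ [c]) w : ℝ)) - (if c = d then (1 : ℝ) else 0) • f, ?_, ?_⟩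
    · refine sub_mem (cnt_mem le_rfl) (Submodule.smul_mem _ _ (PolR_mono (by simp) hf))
    · intro z
      simp only [Pi.sub_apply, Pi.smul_apply, hfz, cnt_snoc, smul_eq_mul]
      push_cast
      split_ifs <;> ring

lemma exists_snoc_PolR (d : Bool) {a : ℕ} {g : List Bool → ℝ} (hg : g ∈ PolR a) :
    ∃ f ∈ PolR a, ∀ z : List Bool, f (z ++ [d]) = g z := by
  induction hg using Submodule.span_induction with
  | mem g hg =>
    obtain ⟨u, hu, rfl⟩ := hg
    obtain ⟨f, hf, h⟩ := exists_snoc d u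
    exact ⟨f, PolR_mono hu hf, h⟩
  | zero => exact ⟨0, zero_mem _, fun z => rfl⟩
  | add g1 g2 _ _ h1 h2 =>
    obtain ⟨f1, hf1, h1⟩ := h1
    obtain ⟨f2, hf2, h2⟩ := h2
    exact ⟨f1 + f2, add_mem hf1 hf2, fun z => by simp [h1, h2]⟩
  | smul c g _ h =>
    obtain ⟨f, hf, h⟩ := h
    exact ⟨c • f, Submodule.smul_mem _ _ hf, fun z => by simp [h]⟩

lemma exists_append {a : ℕ} {g : List Bool → ℝ} (hg : g ∈ PolR a) (q : List Bool) :
    ∃ f ∈ PolR a, ∀ z : List Bool, f (z ++ q) = g z := by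
  induction q using List.reverseRecOn with
  | nil => exact ⟨g, hg, fun z => by simp⟩
  | append_singleton q d ih =>
    obtain ⟨f, hf, h⟩ := ih
    obtain ⟨f', hf', h'⟩ := exists_snoc_PolR d hf
    refine ⟨f', hf', fun z => ?_⟩
    rw [← List.append_assoc, h', h]

/-- `f` has, for all words `r` of length at most `N`, a right translate in `PolR d` which is
bounded by `B` on the words of length at most `N`. -/
def Bd (N d : ℕ) (B : ℝ) (f : List Bool → ℝ) : Prop :=
  ∀ r : List Bool, r.length ≤ N → ∃ F ∈ PolR d, (∀ z, F (z ++ r) = f z) ∧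
    ∀ z : List Bool, z.length ≤ N → |F z| ≤ B

lemma Bd.mono {N d d' : ℕ} {B B' : ℝ} {f : List Bool → ℝ} (h : Bd N d B f) (hd : d ≤ d')
    (hB : B ≤ B') : Bd N d' B' f := by
  intro r hr
  obtain ⟨F, h1, h2, h3⟩ := h r hr
  exact ⟨F, PolR_mono hd h1, h2, fun z hz => (h3 z hz).trans hB⟩

lemma Bd.one (N d : ℕ) : Bd N d 1 1 := by
  intro r hr
  exact ⟨1, one_mem _, fun z => rfl, fun z _ => by simp⟩

lemma Bd.zero (N d : ℕ) : Bd N d 0 0 := by
  intro r hr
  exact ⟨0, zero_mem _, fun z => rfl, fun z _ => by simp⟩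

lemma Bd.add {N d : ℕ} {B B' : ℝ} {f g : List Bool → ℝ} (hf : Bd N d B f) (hg : Bd N d B' g) :
    Bd N d (B + B') (f + g) := by
  intro r hr
  obtain ⟨F, h1, h2, h3⟩ := hf r hr
  obtain ⟨G, h1', h2', h3'⟩ := hg r hr
  refine ⟨F + G, add_mem h1 h1', fun z => by simp [h2, h2'], fun z hz => ?_⟩
  rw [Pi.add_apply]
  exact (abs_add_le _ _).trans (add_le_add (h3 z hz) (h3' z hz))

lemma Bd.smul {N d : ℕ} {B : ℝ} {f : List Bool → ℝ} (c : ℝ) (hf : Bd N d B f) :
    Bd N d (|c| * B) (c • f) := by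
  intro r hr
  obtain ⟨F, h1, h2, h3⟩ := hf r hr
  refine ⟨c • F, Submodule.smul_mem _ _ h1, fun z => by simp [h2], fun z hz => ?_⟩
  rw [Pi.smul_apply, smul_eq_mul, abs_mul]
  exact mul_le_mul_of_nonneg_left (h3 z hz) (abs_nonneg _)

lemma Bd.sum {N d : ℕ} {ι : Type*} (s : Finset ι) (B : ι → ℝ) (f : ι → List Bool → ℝ)
    (h : ∀ i ∈ s, Bd N d (B i) (f i)) : Bd N d (∑ i ∈ s, B i) (∑ i ∈ s, f i) := by
  classical
  induction s using Finset.induction_on with
  | empty => simpa using Bd.zero N d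
  | insert a s ha ih =>
    rw [Finset.sum_insert ha, Finset.sum_insert ha]
    exact (h a (Finset.mem_insert_self _ _)).add
      (ih fun i hi => h i (Finset.mem_insert_of_mem hi))

lemma Bd.nonneg {N d : ℕ} {B : ℝ} {f : List Bool → ℝ} (h : Bd N d B f) : 0 ≤ B := by
  obtain ⟨F, -, -, h3⟩ := h [] (by simp)
  exact (abs_nonneg _).trans (h3 [] (by simp))

lemma Bd.I {N d : ℕ} {B : ℝ} {f : List Bool → ℝ} (hf : Bd N d B f) (s : Bool) :
    Bd N (d + 1) (2 * N * B) (I s f) := by
  have hB := hf.nonneg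
  intro r hr
  obtain ⟨F, h1, h2, h3⟩ := hf r hr
  refine ⟨DeckB.I s F - fun _ => DeckB.I s F r, sub_mem (I_mem s h1) (const_mem _ _), ?_, ?_⟩
  · intro z
    have : (fun z => F (z ++ r)) = f := funext h2
    rw [Pi.sub_apply, I_append, this]
    ring
  · intro z hz
    have e1 := abs_I_le hB s h3 z hz
    have e2 := abs_I_le hB s h3 r hr
    have e3 : (z.length : ℝ) * B ≤ N * B :=
      mul_le_mul_of_nonneg_right (by exact_mod_cast hz) hB
    have e4 : (r.length : ℝ) * B ≤ N * B :=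
      mul_le_mul_of_nonneg_right (by exact_mod_cast hr) hB
    rw [Pi.sub_apply]
    refine (abs_sub _ _).trans ?_
    linarith

lemma Bd.Sg {N d : ℕ} {B : ℝ} {f : List Bool → ℝ} (hf : Bd N d B f) :
    Bd N (d + 1) (2 * N * B) (Sg f) := by
  have hB := hf.nonneg
  intro r hr
  obtain ⟨F, h1, h2, h3⟩ := hf r hr
  refine ⟨DeckB.Sg F - fun _ => DeckB.Sg F r, sub_mem (Sg_mem h1) (const_mem _ _), ?_, ?_⟩
  · intro z
    have : (fun z => F (z ++ r)) = f := funext h2
    rw [Pi.sub_apply, Sg_append, this]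
    ring
  · intro z hz
    have e1 := abs_Sg_le h3 z hz
    have e2 := abs_Sg_le h3 r hr
    have e3 : (z.length : ℝ) * B ≤ N * B :=
      mul_le_mul_of_nonneg_right (by exact_mod_cast hz) hB
    have e4 : (r.length : ℝ) * B ≤ N * B :=
      mul_le_mul_of_nonneg_right (by exact_mod_cast hr) hB
    rw [Pi.sub_apply]
    refine (abs_sub _ _).trans ?_
    linarith

lemma Bd.iter {N d : ℕ} {B : ℝ} {f : List Bool → ℝ} (hf : Bd N d B f) : ∀ j : ℕ,
    Bd N (d + j) ((2 * N) ^ j * B) (DeckB.Sg^[j] f)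
  | 0 => by simpa using hf
  | j + 1 => by
    rw [Function.iterate_succ_apply']
    have := (Bd.iter hf j).Sg
    refine this.mono (by omega) (le_of_eq ?_)
    rw [pow_succ]; ring

/-! ## Sequences -/

/-- The binomial expansion of a shift of an iterated sum. -/
lemma shift_expand {s : ℕ → ℕ → ℝ} (h1 : ∀ j n, s (j + 1) (n + 1) = s (j + 1) n + s j n) :
    ∀ t q : ℕ, t ≤ q → ∀ n : ℕ,
      s q (n + t) = ∑ i ∈ Finset.range (t + 1), (t.choose i : ℝ) * s (q - i) n
  | 0, q, _, n => by simp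
  | t + 1, q, hq, n => by
    obtain ⟨p, rfl⟩ : ∃ p, q = p + 1 := ⟨q - 1, by omega⟩
    have e1 := shift_expand h1 t (p + 1) (by omega) n
    have e2 := shift_expand h1 t p (by omega) n
    rw [← add_assoc, h1, e1, e2, Finset.sum_range_succ' _ (t + 1)]
    have e3 : ∑ i ∈ Finset.range (t + 1), (((t + 1).choose (i + 1) : ℕ) : ℝ) * s (p + 1 - (i + 1)) n
        = ∑ i ∈ Finset.range (t + 1), (t.choose i : ℝ) * s (p - i) n
          + ∑ i ∈ Finset.range (t + 1), (t.choose (i + 1) : ℝ) * s (p + 1 - (i + 1)) n := by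
      rw [← Finset.sum_add_distrib]
      apply Finset.sum_congr rfl
      intro i _
      rw [Nat.choose_succ_succ, show p + 1 - (i + 1) = p - i by omega]
      push_cast
      ring
    rw [e3]
    have e4 := Finset.sum_range_succ' (fun i => (t.choose i : ℝ) * s (p + 1 - i) n) (t + 1)
    have e5 := Finset.sum_range_succ (fun i => (t.choose i : ℝ) * s (p + 1 - i) n) (t + 1)
    rw [e5] at e4
    simp only [Nat.choose_succ_self, Nat.cast_zero, zero_mul, add_zero] at e4
    simp only [Nat.choose_zero_right, Nat.cast_one, one_mul, Nat.sub_zero] at e4 ⊢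
    rw [e4]
    ring

/-- The differences of iterated sums of a periodic sequence are polynomials. -/
lemma diff_expand {s b : ℕ → ℕ → ℝ} {q : ℕ} (h0 : ∀ j, s (j + 1) 0 = 0)
    (h1 : ∀ j n, s (j + 1) (n + 1) = s (j + 1) n + s j n) (hper : ∀ n, s 0 (n + q) = s 0 n)
    (hb0 : ∀ n, b 0 n = 1) (hb1 : ∀ j, b (j + 1) 0 = 0)
    (hb2 : ∀ j n, b (j + 1) (n + 1) = b (j + 1) n + b j n) :
    ∀ j n : ℕ, s j (n + q) - s j n = ∑ i ∈ Finset.range j, s (i + 1) q * b (j - 1 - i) n
  | 0, n => by simp [hper]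
  | j + 1, 0 => by
    rw [h0, zero_add, sub_zero, Finset.sum_range_succ]
    have : ∑ i ∈ Finset.range j, s (i + 1) q * b (j + 1 - 1 - i) 0 = 0 := by
      apply Finset.sum_eq_zero
      intro i hi
      rw [Finset.mem_range] at hi
      obtain ⟨u, hu⟩ : ∃ u, j + 1 - 1 - i = u + 1 := ⟨j - i - 1, by omega⟩
      rw [hu, hb1, mul_zero]
    rw [this, zero_add, show j + 1 - 1 - j = 0 by omega, hb0, mul_one]
  | j + 1, n + 1 => by
    have e1 := diff_expand h0 h1 hper hb0 hb1 hb2 (j + 1) n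
    have e2 := diff_expand h0 h1 hper hb0 hb1 hb2 j n
    have e3 : n + 1 + q = (n + q) + 1 := by omega
    rw [e3, h1, h1]
    have e4 : s (j + 1) (n + q) + s j (n + q) - (s (j + 1) n + s j n)
        = (s (j + 1) (n + q) - s (j + 1) n) + (s j (n + q) - s j n) := by ring
    rw [e4, e1, e2, Finset.sum_range_succ, Finset.sum_range_succ]
    have e5 : j + 1 - 1 - j = 0 := by omega
    rw [e5, hb0, hb0, add_right_comm, ← Finset.sum_add_distrib]
    congr 1
    apply Finset.sum_congr rfl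
    intro i hi
    rw [Finset.mem_range] at hi
    obtain ⟨u, hu⟩ : ∃ u, j + 1 - 1 - i = u + 1 := ⟨j - i - 1, by omega⟩
    have hu' : j - 1 - i = u := by omega
    rw [hu, hu', hb2]
    ring

/-! ## Periodic words -/

/-- The word `γ (n-1) ... γ 1 γ 0`. -/
def zs (γ : ℕ → Bool) : ℕ → List Bool
  | 0 => []
  | n + 1 => γ n :: zs γ n

lemma zs_length (γ : ℕ → Bool) : ∀ n, (zs γ n).length = n
  | 0 => rfl
  | n + 1 => by rw [zs, List.length_cons, zs_length γ n]

lemma suffix_zs {γ : ℕ → Bool} {c : Bool} {z : List Bool} : ∀ {n : ℕ}, c :: z <:+ zs γ n →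
    ∃ m, m < n ∧ z = zs γ m ∧ γ m = c
  | 0, h => by
    have := h.length_le
    simp [zs] at this
  | n + 1, h => by
    rcases List.suffix_cons_iff.1 (show c :: z <:+ γ n :: zs γ n from h) with h' | h'
    · obtain ⟨h1, h2⟩ := List.cons.inj h'
      exact ⟨n, Nat.lt_succ_self n, h2, h1.symm⟩
    · obtain ⟨m, h1, h2, h3⟩ := suffix_zs h'
      exact ⟨m, by omega, h2, h3⟩

/-- **The next letter of a periodic word** is a function in `PolR (q - 1)`, with bounds. -/
theorem next_letter {N q : ℕ} (hN : 1 ≤ N) (hq : 1 ≤ q) (hqN : q ≤ N) {γ : ℕ → Bool}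
    (hγ : ∀ n, γ (n + q) = γ n) (c : Bool) :
    ∃ h : List Bool → ℝ, Bd N (q - 1) ((16 * N) ^ q) h ∧
      ∀ n, h (zs γ n) = if γ n = c then 1 else 0 := by
  have hN0 : (1 : ℝ) ≤ N := by exact_mod_cast hN
  let s : ℕ → ℕ → ℝ := fun j n => match j with
    | 0 => if γ n = c then 1 else 0
    | j + 1 => (Sg^[j] (I c 1)) (zs γ n)
  let b : ℕ → ℕ → ℝ := fun j n => (Sg^[j] 1) (zs γ n)
  have h0 : ∀ j, s (j + 1) 0 = 0 := by
    intro j
    change (Sg^[j] (I c 1)) [] = 0
    cases j with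
    | zero => rfl
    | succ j => rw [Function.iterate_succ_apply', Sg_nil]
  have h1 : ∀ j n, s (j + 1) (n + 1) = s (j + 1) n + s j n := by
    intro j n
    cases j with
    | zero =>
      change I c 1 (γ n :: zs γ n) = I c 1 (zs γ n) + if γ n = c then 1 else 0
      rw [I_cons]
      congr 1
      by_cases h : γ n = c
      · simp [h]
      · simp [h, Ne.symm h]
    | succ j =>
      change (Sg^[j + 1] (I c 1)) (γ n :: zs γ n) = (Sg^[j + 1] (I c 1)) (zs γ n)
        + (Sg^[j] (I c 1)) (zs γ n)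
      rw [Function.iterate_succ_apply', Sg_cons]
  have hper : ∀ n, s 0 (n + q) = s 0 n := by
    intro n
    change (if γ (n + q) = c then (1 : ℝ) else 0) = if γ n = c then 1 else 0
    rw [hγ]
  have hb0 : ∀ n, b 0 n = 1 := fun n => rfl
  have hb1 : ∀ j, b (j + 1) 0 = 0 := by
    intro j
    change (Sg^[j + 1] 1) [] = 0
    rw [Function.iterate_succ_apply', Sg_nil]
  have hb2 : ∀ j n, b (j + 1) (n + 1) = b (j + 1) n + b j n := by
    intro j n
    change (Sg^[j + 1] 1) (γ n :: zs γ n) = (Sg^[j + 1] 1) (zs γ n) + (Sg^[j] 1) (zs γ n)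
    rw [Function.iterate_succ_apply', Sg_cons]
  -- sizes
  have hs : ∀ j n, |s j n| ≤ (n : ℝ) ^ j := by
    intro j
    induction j with
    | zero =>
      intro n
      change |if γ n = c then (1 : ℝ) else 0| ≤ _
      split_ifs <;> simp
    | succ j ih =>
      intro n
      induction n with
      | zero => rw [h0]; simp
      | succ n ihn =>
        rw [h1]
        refine (abs_add_le _ _).trans ?_
        have e1 := ih n
        have e2 : (0 : ℝ) ≤ (n : ℝ) := Nat.cast_nonneg n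
        have e3 : (n : ℝ) ^ (j + 1) + (n : ℝ) ^ j ≤ ((n + 1 : ℕ) : ℝ) ^ (j + 1) := by
          push_cast
          have : (n : ℝ) ^ j ≤ ((n : ℝ) + 1) ^ j := pow_le_pow_left₀ e2 (by linarith) j
          calc (n : ℝ) ^ (j + 1) + (n : ℝ) ^ j = (n : ℝ) ^ j * (n + 1) := by ring
            _ ≤ ((n : ℝ) + 1) ^ j * (n + 1) := mul_le_mul_of_nonneg_right this (by linarith)
            _ = ((n : ℝ) + 1) ^ (j + 1) := by ring
        linarith
  refine ⟨(∑ i ∈ Finset.range q, s (i + 1) q • (Sg^[q - 1 - i] 1)) +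
    (-1 : ℝ) • ∑ i ∈ Finset.range (q - 1), (q.choose (i + 1) : ℝ) • (Sg^[q - 1 - i - 1] (I c 1)),
    ?_, ?_⟩
  · have t1 : Bd N (q - 1) (∑ i ∈ Finset.range q, (2 * (N : ℝ)) ^ q)
        (∑ i ∈ Finset.range q, s (i + 1) q • (Sg^[q - 1 - i] 1)) := by
      apply Bd.sum
      intro i hi
      rw [Finset.mem_range] at hi
      refine ((Bd.iter (Bd.one N 0) (q - 1 - i)).smul (s (i + 1) q)).mono (by omega) ?_
      have e1 : |s (i + 1) q| ≤ (2 * (N : ℝ)) ^ (i + 1) := by
        refine (hs (i + 1) q).trans (pow_le_pow_left₀ (Nat.cast_nonneg q) ?_ (i + 1))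
        have : (q : ℝ) ≤ N := by exact_mod_cast hqN
        linarith
      calc |s (i + 1) q| * ((2 * (N : ℝ)) ^ (q - 1 - i) * 1)
          ≤ (2 * (N : ℝ)) ^ (i + 1) * ((2 * (N : ℝ)) ^ (q - 1 - i) * 1) :=
            mul_le_mul_of_nonneg_right e1 (by positivity)
        _ = (2 * (N : ℝ)) ^ ((i + 1) + (q - 1 - i)) := by
            rw [mul_one, ← pow_add (2 * (N : ℝ)) (i + 1) (q - 1 - i)]
        _ = (2 * (N : ℝ)) ^ q := by congr 1; omega
    have t2 : Bd N (q - 1) (∑ i ∈ Finset.range (q - 1), (4 * (N : ℝ)) ^ q)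
        (∑ i ∈ Finset.range (q - 1), (q.choose (i + 1) : ℝ) • (Sg^[q - 1 - i - 1] (I c 1))) := by
      apply Bd.sum
      intro i hi
      rw [Finset.mem_range] at hi
      refine ((Bd.iter (Bd.I (Bd.one N 0) c) (q - 1 - i - 1)).smul
        ((q.choose (i + 1) : ℕ) : ℝ)).mono (by omega) ?_
      have e1 : |((q.choose (i + 1) : ℕ) : ℝ)| ≤ 2 ^ q := by
        rw [abs_of_nonneg (Nat.cast_nonneg _)]
        exact_mod_cast Nat.choose_le_two_pow q (i + 1)
      have e2 : (2 * (N : ℝ)) ^ (q - 1 - i - 1) * (2 * N * 1) ≤ (2 * (N : ℝ)) ^ q := by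
        calc (2 * (N : ℝ)) ^ (q - 1 - i - 1) * (2 * N * 1) = (2 * (N : ℝ)) ^ (q - 1 - i - 1 + 1) := by
              rw [pow_succ]; ring
          _ ≤ (2 * (N : ℝ)) ^ q := pow_le_pow_right₀ (by linarith) (by omega)
      calc |((q.choose (i + 1) : ℕ) : ℝ)| * ((2 * (N : ℝ)) ^ (q - 1 - i - 1) * (2 * N * 1))
          ≤ 2 ^ q * (2 * (N : ℝ)) ^ q := mul_le_mul e1 e2 (by positivity) (by positivity)
        _ = (4 * (N : ℝ)) ^ q := by rw [← mul_pow]; ring_nf
    refine (t1.add (t2.smul (-1))).mono le_rfl ?_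
    simp only [Finset.sum_const, Finset.card_range, nsmul_eq_mul, abs_neg, abs_one, one_mul]
    have f1 : (2 * (N : ℝ)) ^ q ≤ (4 * (N : ℝ)) ^ q := pow_le_pow_left₀ (by linarith) (by linarith) q
    have f2 : ((q - 1 : ℕ) : ℝ) ≤ q := by exact_mod_cast Nat.sub_le q 1
    have f3 : (2 : ℝ) * q ≤ 4 ^ q := by
      have : 2 * q ≤ 4 ^ q := by
        clear * -
        induction q with
        | zero => simp
        | succ q ih =>
          rw [pow_succ]
          have : 1 ≤ 4 ^ q := Nat.one_le_pow _ _ (by norm_num)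
          omega
      exact_mod_cast this
    have f4 : (0 : ℝ) ≤ (4 * (N : ℝ)) ^ q := by positivity
    calc (q : ℝ) * (2 * (N : ℝ)) ^ q + ((q - 1 : ℕ) : ℝ) * (4 * (N : ℝ)) ^ q
        ≤ q * (4 * (N : ℝ)) ^ q + q * (4 * (N : ℝ)) ^ q := by
          apply add_le_add (mul_le_mul_of_nonneg_left f1 (Nat.cast_nonneg q))
            (mul_le_mul_of_nonneg_right f2 f4)
      _ = (2 * q) * (4 * (N : ℝ)) ^ q := by ring
      _ ≤ 4 ^ q * (4 * (N : ℝ)) ^ q := mul_le_mul_of_nonneg_right f3 f4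
      _ = (16 * (N : ℝ)) ^ q := by rw [← mul_pow]; ring_nf
  · intro n
    have e1 := shift_expand h1 q q le_rfl n
    have e2 := diff_expand h0 h1 hper hb0 hb1 hb2 q n
    rw [e1, Finset.sum_range_succ'] at e2
    obtain ⟨p, rfl⟩ : ∃ p, q = p + 1 := ⟨q - 1, by omega⟩
    rw [Finset.sum_range_succ] at e2
    have e3 : s (p + 1 - (p + 1)) n = if γ n = c then 1 else 0 := by
      rw [Nat.sub_self]
    rw [e3] at e2
    simp only [Pi.add_apply, Finset.sum_apply, Pi.smul_apply, smul_eq_mul,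
      Nat.add_sub_cancel] at e2 ⊢
    have e4 : ∑ i ∈ Finset.range (p + 1), s (i + 1) (p + 1) * (Sg^[p - i] 1) (zs γ n)
        = ∑ i ∈ Finset.range (p + 1), s (i + 1) (p + 1) * b (p - i) n := rfl
    have e5 : ∑ i ∈ Finset.range p, ((p + 1).choose (i + 1) : ℝ) * (Sg^[p - i - 1] (I c 1)) (zs γ n)
        = ∑ i ∈ Finset.range p, ((p + 1).choose (i + 1) : ℝ) * s (p + 1 - (i + 1)) n := by
      apply Finset.sum_congr rfl
      intro i hi
      rw [Finset.mem_range] at hi
      congr 1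
      obtain ⟨u, hu⟩ : ∃ u, p + 1 - (i + 1) = u + 1 := ⟨p - i - 1, by omega⟩
      have hu' : p - i - 1 = u := by omega
      rw [hu, hu']
    rw [e4, e5, ← e2]
    simp only [Nat.choose_self, Nat.cast_one, one_mul, Nat.choose_zero_right, Nat.sub_zero]
    ring

end DeckB
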