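import Mathlib

/-!
# Concatenations of periodic words
-/

namespace DeckB

/-- `w` is a concatenation of `r` words with periods `q_1, …, q_r ≥ 1` (a word `u` has period `q`
if `u_(i+q) = u_i` whenever both letters exist), where `L` is the list of the pairs (word,
period). -/
def PeriodicPieces (L : List (List Bool × ℕ)) (w : List Bool) : Prop :=
  (∀ a ∈ L, 1 ≤ a.2 ∧ ∀ i, i + a.2 < a.1.length → a.1[i + a.2]? = a.1[i]?) ∧
    (L.map Prod.fst).flatten = w

end DeckB
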