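import Pool.Agent.DeckB.Lift
import Pool.Agent.DeckB.RepDefs
import Pool.Agent.DeckB.Disc

/-!
# Strings which are locally concatenations of few periodic words
-/

namespace DeckB

open DeckA

/-! ## The criterion, with translations -/

lemma I_append_le' (s c : Bool) (hsc : s ≠ c) {h : List Bool → ℝ} {η : ℝ} (hη : 0 ≤ η)
    (p : List Bool) : ∀ x' : List Bool,
      (∀ z : List Bool, s :: z <:+ x' ++ [c] → h (z ++ p) ≤ η) →
      I s h (x' ++ c :: p) ≤ I s h p + x'.length * η
  | [], _ => by simp [I, hsc]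
  | a :: x', hv => by
    have ih := I_append_le' s c hsc hη p x' (fun z hz => hv z (hz.trans (by simp)))
    rw [List.cons_append, I]
    rw [List.length_cons]
    push_cast
    split_ifs with hsa
    · have h1 : h (x' ++ c :: p) ≤ η := by
        have := hv (x' ++ [c]) (by rw [hsa]; exact List.suffix_rfl)
        simpa using this
      linarith
    · linarith

/-- The criterion in translated form. -/
theorem crit_trans {n k l : ℕ} (hk : 2 * l + 1 ≤ k) (hkn : k ≤ n) (x : Fin n → Bool)
    (H : ∀ (X p : List Bool) (c : Bool), List.ofFn x = X ++ c :: p →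
      ∃ g ∈ PolR l, g [] = 1 ∧ ∀ z : List Bool, (!c) :: z <:+ X ++ [c] → (g z) ^ 2 * (n : ℝ) ≤ 1) :
    Reconstructible k x := by
  intro y hy
  by_contra hne
  have hcnt := cnt_eq_of_deck hkn hy
  have hxy : List.ofFn x ≠ List.ofFn y := fun h => hne (List.ofFn_injective h).symm
  obtain ⟨x', y', p, c, c', hc, hx, hy'⟩ := exists_last_diff (by simp) hxy
  have hc' : c' = !c := by cases c <;> cases c' <;> simp_all
  obtain ⟨g, hg, hg1, hgz⟩ := H x' p c hx
  obtain ⟨f, hf, hfg⟩ := exists_append hg p
  have hfp : f p = 1 := by simpa [hg1] using hfg []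
  have hF : I c' (f * f) ∈ PolR (2 * l + 1) := by
    rw [two_mul]
    exact I_mem c' (mul_mem hf hf)
  have hn : (List.ofFn x).length = n := by simp
  have hL : (n : ℝ) = x'.length + (p.length + 1) := by
    rw [← hn, hx]; simp
  have hLpos : (0 : ℝ) < n := by rw [hL]; positivity
  have e1 := eval_eq (fun z hz => hcnt z (hz.trans hk)) hF
  rw [hx, hy'] at e1
  have e2 : I c' (f * f) (x' ++ c :: p) ≤ I c' (f * f) p + x'.length * (1 / (n : ℝ)) := by
    apply I_append_le' c' c (Ne.symm hc) (by positivity)
    intro z hz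
    rw [Pi.mul_apply, le_div_iff₀ hLpos, ← sq, hfg]
    rw [hc'] at hz
    exact hgz z hz
  have e3 : I c' (f * f) p + 1 ≤ I c' (f * f) (y' ++ c' :: p) := by
    have := I_append_ge c' (h := f * f) (fun w => mul_self_nonneg _) (c' :: p) y'
    rw [I] at this
    simpa [hfp] using this
  have e4 : (x'.length : ℝ) * (1 / (n : ℝ)) < 1 := by
    rw [mul_one_div, div_lt_one hLpos, hL]
    have : (0 : ℝ) ≤ (p.length : ℝ) := Nat.cast_nonneg _
    linarith
  linarith

/-! ## One periodic piece -/

/-- The property of a piece `X` of the word, followed by `r`: a function in `PolR l` which is `1`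
at the empty word, `0` at the places in `X` preceded by `!c`, and bounded by `B` on words of length
at most `N`. -/
def Good (N l : ℕ) (B : ℝ) (X r : List Bool) (c : Bool) : Prop :=
  ∃ f ∈ PolR l, f [] = 1 ∧ (∀ z : List Bool, (!c) :: z <:+ X → f (z ++ r) = 0) ∧
    ∀ z : List Bool, z.length ≤ N → |f z| ≤ B

lemma Good.nil (N l : ℕ) {B : ℝ} (hB : 1 ≤ B) (r : List Bool) (c : Bool) : Good N l B [] r c :=
  ⟨1, one_mem _, rfl, fun z hz => by simpa using hz.length_le, fun z _ => by simpa using hB⟩

lemma suffix_append_cases {t W : List Bool} : ∀ {Y : List Bool}, t <:+ Y ++ W →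
    t <:+ W ∨ ∃ t', t = t' ++ W ∧ t' <:+ Y
  | [], h => Or.inl (by simpa using h)
  | a :: Y, h => by
    rcases List.suffix_cons_iff.1 (show t <:+ a :: (Y ++ W) from h) with h' | h'
    · exact Or.inr ⟨a :: Y, by simpa using h', List.suffix_rfl⟩
    · rcases suffix_append_cases h' with h1 | ⟨t', h1, h2⟩
      · exact Or.inl h1
      · exact Or.inr ⟨t', h1, h2.trans (List.suffix_cons a Y)⟩

lemma Good.comp {N l₁ l₂ : ℕ} {B₁ B₂ : ℝ} {Y W r : List Bool} {c : Bool}
    (h₂ : Good N l₂ B₂ W r c) (h₁ : Good N l₁ B₁ Y (W ++ r) c) :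
    Good N (l₁ + l₂) (B₁ * B₂) (Y ++ W) r c := by
  obtain ⟨f₁, a1, a2, a3, a4⟩ := h₁
  obtain ⟨f₂, b1, b2, b3, b4⟩ := h₂
  refine ⟨f₁ * f₂, mul_mem a1 b1, by simp [a2, b2], ?_, ?_⟩
  · intro z hz
    rw [Pi.mul_apply]
    rcases suffix_append_cases hz with h | ⟨t', h1, h2⟩
    · rw [b3 z h, mul_zero]
    · cases t' with
      | nil =>
        rw [List.nil_append] at h1
        rw [b3 z (by rw [h1]), mul_zero]
      | cons a t' =>
        rw [List.cons_append] at h1
        obtain ⟨h3, h4⟩ := List.cons.inj h1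
        rw [h4, List.append_assoc, a3 t' (by rw [h3]; exact h2), zero_mul]
  · intro z hz
    rw [Pi.mul_apply, abs_mul]
    exact mul_le_mul (a4 z hz) (b4 z hz) (abs_nonneg _) ((abs_nonneg _).trans (a4 z hz))

lemma I_zs_const {γ : ℕ → Bool} {c : Bool} {F : List Bool → ℝ} {r : List Bool}
    (h : ∀ n, γ n = c → F (zs γ n ++ r) = 0) : ∀ n, I c F (zs γ n ++ r) = I c F r
  | 0 => rfl
  | n + 1 => by
    change I c F (γ n :: (zs γ n ++ r)) = _
    rw [I_cons, I_zs_const h n]
    split_ifs with hc
    · rw [h n hc.symm]; ring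
    · ring

/-- A periodic piece. -/
theorem good_zs {N q : ℕ} (hN : 1 ≤ N) (hq : 1 ≤ q) (hqN : q ≤ N) {γ : ℕ → Bool}
    (hγ : ∀ n, γ (n + q) = γ n) (c : Bool) {r : List Bool} (hr : r.length ≤ N)
    (hrc : (r = [] ∧ γ 0 = c) ∨ ∃ r', r = r' ++ [c]) (M : ℕ) :
    Good N (2 * q - 1) ((16 * N) ^ (3 * q)) (zs γ M) r c := by
  have hN0 : (1 : ℝ) ≤ N := by exact_mod_cast hN
  obtain ⟨h, hBd, hh⟩ := next_letter hN hq hqN hγ (!c)
  obtain ⟨F, hF, hF2, hF3⟩ := hBd r hr
  set A : ℝ := 16 * N with hA
  have hA1 : 1 ≤ A := by rw [hA]; linarith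
  have hAq : 1 ≤ A ^ q := one_le_pow₀ hA1
  have hB2 : 4 * N * (A ^ q * A ^ q) + 1 ≤ A ^ (3 * q) := by
    have e1 : A ≤ A ^ q := by
      calc A = A ^ 1 := (pow_one A).symm
        _ ≤ A ^ q := pow_le_pow_right₀ hA1 hq
    have e2 : A ^ (3 * q) = A ^ q * (A ^ q * A ^ q) := by
      rw [← pow_add, ← pow_add]; congr 1; ring
    have e3 : 1 ≤ A ^ q * A ^ q := one_le_mul_of_one_le_of_one_le hAq hAq
    rw [e2]
    have e4 : 4 * (N : ℝ) + 1 ≤ A := by rw [hA]; linarith
    calc 4 * N * (A ^ q * A ^ q) + 1 ≤ 4 * N * (A ^ q * A ^ q) + A ^ q * A ^ q := by linarith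
      _ = (4 * N + 1) * (A ^ q * A ^ q) := by ring
      _ ≤ A ^ q * (A ^ q * A ^ q) :=
        mul_le_mul_of_nonneg_right (e4.trans e1) (by linarith)
  -- the linear candidate
  have key1 : 1 / 2 ≤ |1 - F []| → Good N (2 * q - 1) (A ^ (3 * q)) (zs γ M) r c := by
    intro h1
    have h1' : 1 - F [] ≠ 0 := by
      intro h0; rw [h0] at h1; norm_num at h1
    refine ⟨(1 - F [])⁻¹ • (1 - F), Submodule.smul_mem _ _ (sub_mem (one_mem _)
      (PolR_mono (by omega) hF)), ?_, ?_, ?_⟩
    · simp only [Pi.smul_apply, Pi.sub_apply, Pi.one_apply, smul_eq_mul]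
      exact inv_mul_cancel₀ h1'
    · intro z hz
      obtain ⟨m, _, hzm, hm⟩ := suffix_zs hz
      simp only [Pi.smul_apply, Pi.sub_apply, Pi.one_apply, smul_eq_mul]
      rw [hF2, hzm, hh, if_pos hm]
      ring
    · intro z hz
      have h2 := hF3 z hz
      simp only [Pi.smul_apply, Pi.sub_apply, Pi.one_apply, smul_eq_mul]
      rw [abs_mul, abs_inv]
      have h3 : |1 - F []|⁻¹ ≤ 2 := by
        rw [inv_le_comm₀ (by linarith) two_pos]; linarith
      have h4 : |1 - F z| ≤ 1 + A ^ q := by
        refine (abs_sub _ _).trans ?_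
        rw [abs_one]; linarith
      calc |1 - F []|⁻¹ * |1 - F z| ≤ 2 * (1 + A ^ q) :=
            mul_le_mul h3 h4 (abs_nonneg _) (by norm_num)
        _ ≤ 4 * N * (A ^ q * A ^ q) + 1 := by
            have e5 : A ^ q ≤ A ^ q * A ^ q := le_mul_of_one_le_left (by linarith) hAq
            have e6 : A ^ q * A ^ q ≤ N * (A ^ q * A ^ q) :=
              le_mul_of_one_le_left (by linarith) hN0
            linarith
        _ ≤ A ^ (3 * q) := hB2
  by_cases h1 : 1 / 2 ≤ |1 - F []|
  · exact key1 h1
  · rw [not_le, abs_lt] at h1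
    have hF1 : 1 / 2 < F [] := by linarith [h1.2]
    rcases hrc with ⟨hr0, hc0⟩ | ⟨r', hr'⟩
    · -- `r` is empty: `F [] = 0`
      exfalso
      have h2 := hF2 []
      rw [hr0, List.nil_append] at h2
      have h3 := hh 0
      rw [hc0] at h3
      change h [] = _ at h3
      rw [h2, h3] at hF1
      cases c <;> norm_num at hF1
    · set K : List Bool → ℝ := I c (F * F) with hK
      have hKr : 1 / 4 ≤ K r := by
        have := I_append_ge c (h := F * F) (fun w => mul_self_nonneg _) [c] r'
        rw [I_cons, I_nil, if_pos rfl, ← hr'] at this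
        simp only [Pi.mul_apply, zero_add] at this
        have h4 : 1 / 4 ≤ F [] * F [] := by nlinarith
        exact h4.trans this
      have hKr0 : 0 < K r := by linarith
      refine ⟨1 - (K r)⁻¹ • K, sub_mem (one_mem _) (Submodule.smul_mem _ _ ?_), ?_, ?_, ?_⟩
      · have := I_mem c (mul_mem hF hF)
        exact PolR_mono (by omega) this
      · simp only [Pi.smul_apply, Pi.sub_apply, Pi.one_apply, smul_eq_mul, hK, I_nil]
        ring
      · intro z hz
        obtain ⟨m, _, hzm, hm⟩ := suffix_zs hz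
        have h5 : K (zs γ m ++ r) = K r := by
          apply I_zs_const
          intro n hn
          rw [Pi.mul_apply, hF2, hh, if_neg (by rw [hn]; cases c <;> simp)]
          ring
        simp only [Pi.smul_apply, Pi.sub_apply, Pi.one_apply, smul_eq_mul]
        rw [hzm, h5, inv_mul_cancel₀ hKr0.ne']
        ring
      · intro z hz
        have h6 : |K z| ≤ N * (A ^ q * A ^ q) := by
          refine (abs_I_le (N := N) (B := A ^ q * A ^ q) (by positivity) c ?_ z hz).trans ?_
          · intro z hz
            rw [Pi.mul_apply, abs_mul]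
            exact mul_le_mul (hF3 z hz) (hF3 z hz) (abs_nonneg _) (by positivity)
          · exact mul_le_mul_of_nonneg_right (by exact_mod_cast hz) (by positivity)
        have h7 : (K r)⁻¹ ≤ 4 := by
          rw [inv_le_comm₀ hKr0 (by norm_num)]; linarith
        simp only [Pi.smul_apply, Pi.sub_apply, Pi.one_apply, smul_eq_mul]
        refine (abs_sub _ _).trans ?_
        rw [abs_one, abs_mul, abs_inv, abs_of_pos hKr0]
        have h8 : (K r)⁻¹ * |K z| ≤ 4 * (N * (A ^ q * A ^ q)) :=
          mul_le_mul h7 h6 (abs_nonneg _) (by norm_num)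
        linarith

/-- A word with period `q` is the beginning of a periodic sequence, read from the right. -/
lemma exists_gamma {q : ℕ} (hq : 1 ≤ q) {W : List Bool}
    (hW : ∀ i, i + q < W.length → W[i + q]? = W[i]?) :
    ∃ γ : ℕ → Bool, (∀ n, γ (n + q) = γ n) ∧ zs γ W.length = W := by
  let γ : ℕ → Bool := fun n => (W.reverse[n % q]?).getD false
  have hper : ∀ n, γ (n + q) = γ n := by
    intro n
    simp only [γ, Nat.add_mod_right]
  have hrev : ∀ j, j + q < W.length → W.reverse[j + q]? = W.reverse[j]? := by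
    intro j hj
    rw [List.getElem?_reverse (by omega), List.getElem?_reverse (by omega)]
    have := hW (W.length - 1 - (j + q)) (by omega)
    rw [← this]
    congr 1
    omega
  have hval : ∀ n, n < W.length → W.reverse[n]? = some (γ n) := by
    intro n
    induction n using Nat.strong_induction_on with
    | _ n ih =>
      intro hn
      rcases Nat.lt_or_ge n q with h | h
      · simp only [γ, Nat.mod_eq_of_lt h]
        rw [List.getElem?_eq_getElem (by simpa using hn)]
        simp
      · obtain ⟨j, rfl⟩ : ∃ j, n = j + q := ⟨n - q, by omega⟩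
        rw [hrev j hn, ih j (by omega) (by omega), hper]
  refine ⟨γ, hper, ?_⟩
  have hzs : ∀ n, n ≤ W.length → zs γ n = W.drop (W.length - n) := by
    intro n
    induction n with
    | zero => intro _; simp [zs]
    | succ n ih =>
      intro hn
      rw [zs, ih (by omega)]
      have h1 := hval n (by omega)
      rw [List.getElem?_reverse (by omega)] at h1
      have h2 : W.length - n = (W.length - (n + 1)) + 1 := by omega
      have h3 : W.length - 1 - n = W.length - (n + 1) := by omega
      rw [h3] at h1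
      have h4 : W.length - (n + 1) < W.length := by omega
      rw [h2, List.drop_eq_getElem_cons h4]
      congr 1
      rw [List.getElem?_eq_getElem h4] at h1
      exact (Option.some.inj h1).symm
  rw [hzs W.length le_rfl]
  simp

lemma good_piece {N q : ℕ} (hN : 1 ≤ N) (hq : 1 ≤ q) (hqN : q ≤ N) {W : List Bool}
    (hW : ∀ i, i + q < W.length → W[i + q]? = W[i]?) (c : Bool) {r : List Bool}
    (hr : r.length ≤ N) (hrc : W ≠ [] → (W ++ r).getLast? = some c) :
    Good N (2 * q - 1) ((16 * N) ^ (3 * q)) W r c := by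
  have hN0 : (1 : ℝ) ≤ N := by exact_mod_cast hN
  by_cases hW0 : W = []
  · rw [hW0]
    exact Good.nil _ _ (one_le_pow₀ (by linarith)) _ _
  · obtain ⟨γ, hγ, hz⟩ := exists_gamma hq hW
    have hc := hrc hW0
    rw [← hz]
    apply good_zs hN hq hqN hγ c hr
    by_cases hr0 : r = []
    · left
      refine ⟨hr0, ?_⟩
      rw [hr0, List.append_nil, ← hz] at hc
      obtain ⟨n, hn⟩ : ∃ n, W.length = n + 1 := by
        have := List.length_pos_iff.2 hW0
        exact ⟨W.length - 1, by omega⟩
      rw [hn] at hc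
      have hlast : ∀ n, (zs γ (n + 1)).getLast? = some (γ 0) := by
        intro n
        induction n with
        | zero => rfl
        | succ n ih =>
          rw [zs, List.getLast?_cons, ih]
          rfl
      rw [hlast] at hc
      exact Option.some.inj hc
    · right
      rw [List.getLast?_append_of_ne_nil _ hr0] at hc
      obtain ⟨r', hr'⟩ := List.getLast?_eq_some_iff.1 hc
      exact ⟨r', hr'⟩

lemma Good.mono {N l l' : ℕ} {B B' : ℝ} {X r : List Bool} {c : Bool} (h : Good N l B X r c)
    (hl : l ≤ l') (hB : B ≤ B') : Good N l' B' X r c := by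
  obtain ⟨f, h1, h2, h3, h4⟩ := h
  exact ⟨f, PolR_mono hl h1, h2, h3, fun z hz => (h4 z hz).trans hB⟩

/-- A piece without the letter `!c` costs nothing. -/
lemma good_pure (N l : ℕ) {B : ℝ} (hB : 1 ≤ B) {W : List Bool} (r : List Bool) {c : Bool}
    (hW : (!c) ∉ W) : Good N l B W r c :=
  ⟨1, one_mem _, rfl, fun z hz => absurd (hz.subset (by simp)) hW, fun z _ => by simpa using hB⟩

/-- The last piece costs less. -/
lemma good_last {N q : ℕ} (hN : 1 ≤ N) (hq : 1 ≤ q) (hqN : q ≤ N) {W : List Bool}
    (hW : ∀ i, i + q < W.length → W[i + q]? = W[i]?) {c : Bool} (hc : W.getLast? = some c) :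
    ∃ B, Good N (q - 1) B W [] c := by
  obtain ⟨γ, hγ, hz⟩ := exists_gamma hq hW
  have hW0 : W ≠ [] := by rintro rfl; simp at hc
  have hγ0 : γ 0 = c := by
    rw [← hz] at hc
    obtain ⟨n, hn⟩ : ∃ n, W.length = n + 1 := by
      have := List.length_pos_iff.2 hW0
      exact ⟨W.length - 1, by omega⟩
    rw [hn] at hc
    have hlast : ∀ n, (zs γ (n + 1)).getLast? = some (γ 0) := by
      intro n
      induction n with
      | zero => rfl
      | succ n ih =>
        rw [zs, List.getLast?_cons, ih]
        rfl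
    rw [hlast] at hc
    exact Option.some.inj hc
  obtain ⟨h, hBd, hh⟩ := next_letter hN hq hqN hγ (!c)
  obtain ⟨F, hF, hF2, hF3⟩ := hBd [] (by simp)
  have hFh : F = h := by
    funext z
    simpa using hF2 z
  subst hFh
  refine ⟨1 + (16 * N) ^ q, 1 - F, sub_mem (one_mem _) hF, ?_, ?_, ?_⟩
  · have h3 := hh 0
    rw [hγ0] at h3
    change F [] = _ at h3
    rw [Pi.sub_apply, h3]
    cases c <;> simp
  · intro z hz'
    rw [← hz] at hz'
    obtain ⟨m, _, hzm, hm⟩ := suffix_zs hz'
    rw [List.append_nil, Pi.sub_apply, hzm, hh, if_pos hm]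
    simp
  · intro z hz'
    rw [Pi.sub_apply]
    refine (abs_sub _ _).trans ?_
    rw [Pi.one_apply, abs_one]
    have := hF3 z hz'
    linarith

/-! ## Several pieces -/

/-- The pieces of a concatenation. -/
theorem good_pieces {N : ℕ} (hN : 1 ≤ N) (c : Bool) : ∀ (L : List (List Bool × ℕ)) (r : List Bool),
    (∀ a ∈ L, 1 ≤ a.2 ∧ a.2 ≤ N ∧ ∀ i, i + a.2 < a.1.length → a.1[i + a.2]? = a.1[i]?) →
    ((L.map Prod.fst).flatten ++ r).length ≤ N →
    ((L.map Prod.fst).flatten ≠ [] → ((L.map Prod.fst).flatten ++ r).getLast? = some c) →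
    Good N ((L.map fun a => if (!c) ∈ a.1 then 2 * a.2 - 1 else 0).sum)
      ((16 * N) ^ (3 * (L.map Prod.snd).sum)) (L.map Prod.fst).flatten r c := by
  intro L
  induction L using List.reverseRecOn with
  | nil =>
    intro r _ _ _
    simpa using Good.nil N 0 (le_refl (1 : ℝ)) r c
  | append_singleton L a ih =>
    intro r hL hlen hlast
    simp only [List.map_append, List.map_cons, List.map_nil, List.flatten_append,
      List.flatten_cons, List.flatten_nil, List.append_nil, List.sum_append, List.sum_cons,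
      List.sum_nil, add_zero, List.append_assoc] at hlen hlast ⊢
    have ha := hL a (by simp)
    have hlen2 : (a.1 ++ r).length ≤ N := by
      simp only [List.length_append] at hlen ⊢; omega
    have hN0 : (1 : ℝ) ≤ N := by exact_mod_cast hN
    have g2 : Good N (if (!c) ∈ a.1 then 2 * a.2 - 1 else 0) ((16 * N) ^ (3 * a.2)) a.1 r c := by
      split_ifs with hmem
      · apply good_piece hN ha.1 ha.2.1 ha.2.2 c (by simp only [List.length_append] at hlen2; omega)
        intro h0
        have h1 := hlast (by simp [h0])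
        rwa [List.getLast?_append_of_ne_nil _ (by simp [h0])] at h1
      · exact good_pure _ _ (one_le_pow₀ (by linarith)) _ hmem
    have g1 := ih (a.1 ++ r) (fun b hb => hL b (by simp [hb])) hlen (fun h0 => by
      apply hlast
      simp only [ne_eq, List.append_eq_nil_iff, not_and]
      intro h1; exact absurd h1 h0)
    have := g2.comp g1
    have e : ((16 : ℝ) * N) ^ (3 * (L.map Prod.snd).sum) * (16 * N) ^ (3 * a.2)
        = (16 * N) ^ (3 * ((L.map Prod.snd).sum + a.2)) := by
      rw [← pow_add]; congr 1; ring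
    rwa [e] at this

lemma prefix_append_cases {X A B : List Bool} (h : X <+: A ++ B) :
    X <+: A ∨ ∃ t, X = A ++ t ∧ t <+: B := by
  rcases List.prefix_or_prefix_of_prefix h (List.prefix_append A B) with h1 | ⟨t, ht⟩
  · exact Or.inl h1
  · refine Or.inr ⟨t, ht.symm, ?_⟩
    rw [← ht] at h
    exact (List.prefix_append_right_inj A).1 h

/-- A nonempty prefix of a concatenation of periodic words, with its last piece. -/
lemma pieces_prefix_last (d : Bool) (b : List Bool × ℕ) : ∀ (L : List (List Bool × ℕ))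
    (X : List Bool),
    (∀ a ∈ L ++ [b], 1 ≤ a.2 ∧ ∀ i, i + a.2 < a.1.length → a.1[i + a.2]? = a.1[i]?) →
    X <+: ((L ++ [b]).map Prod.fst).flatten → X ≠ [] →
    ∃ (L' : List (List Bool × ℕ)) (W : List Bool) (q : ℕ), X = (L'.map Prod.fst).flatten ++ W ∧
      W ≠ [] ∧ 1 ≤ q ∧ (∀ i, i + q < W.length → W[i + q]? = W[i]?) ∧
      (∀ a ∈ L', a ∈ L) ∧ (∃ a ∈ L ++ [b], q = a.2) ∧
      (L'.map fun a => if d ∈ a.1 then 2 * a.2 - 1 else 0).sum + (if d ∈ W then q - 1 else 0) ≤
        (L.map fun a => if d ∈ a.1 then 2 * a.2 - 1 else 0).sum + (b.2 - 1)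
  | [], X, hL, h, hX => by
    have hb := hL b (by simp)
    simp only [List.nil_append, List.map_cons, List.map_nil, List.flatten_cons,
      List.flatten_nil, List.append_nil] at h
    refine ⟨[], X, b.2, by simp, hX, hb.1, ?_, by simp, ⟨b, by simp, rfl⟩, ?_⟩
    · intro i hi
      obtain ⟨s, hs⟩ := h
      have h3 := hb.2 i (by rw [← hs]; simp; omega)
      rw [← hs, List.getElem?_append_left (by omega), List.getElem?_append_left (by omega)] at h3
      exact h3
    · simp only [List.map_nil, List.sum_nil, zero_add]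
      split_ifs <;> omega
  | a :: L, X, hL, h, hX => by
    have ha := hL a (by simp)
    simp only [List.cons_append, List.map_cons, List.flatten_cons] at h
    by_cases h1 : X <+: a.1
    · refine ⟨[], X, a.2, by simp, hX, ha.1, ?_, by simp, ⟨a, by simp, rfl⟩, ?_⟩
      · intro i hi
        obtain ⟨s, hs⟩ := h1
        have h3 := ha.2 i (by rw [← hs]; simp; omega)
        rw [← hs, List.getElem?_append_left (by omega), List.getElem?_append_left (by omega)] at h3
        exact h3
      · simp only [List.map_nil, List.sum_nil, zero_add, List.map_cons, List.sum_cons]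
        by_cases hd : d ∈ X
        · rw [if_pos hd, if_pos (h1.subset hd)]
          omega
        · rw [if_neg hd]; exact Nat.zero_le _
    · obtain ⟨t, ht, h2⟩ : ∃ t, X = a.1 ++ t ∧ t <+: ((L ++ [b]).map Prod.fst).flatten := by
        rcases prefix_append_cases h with h' | h'
        · exact absurd h' h1
        · exact h'
      have ht0 : t ≠ [] := by
        rintro rfl
        exact h1 (by rw [ht]; simp)
      obtain ⟨L', W, q, e1, e2, e3, e4, e5, e6, e7⟩ := pieces_prefix_last d b L t
        (fun x hx => hL x (by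
          rw [List.cons_append]
          exact List.mem_cons_of_mem _ hx)) h2 ht0
      refine ⟨a :: L', W, q, ?_, e2, e3, e4, ?_, ?_, ?_⟩
      · rw [List.map_cons, List.flatten_cons, ht, e1, List.append_assoc]
      · intro x hx
        rcases List.mem_cons.1 hx with hx | hx
        · rw [hx]; simp
        · exact List.mem_cons_of_mem _ (e5 x hx)
      · obtain ⟨x, hx, hxq⟩ := e6
        exact ⟨x, by rw [List.cons_append]; exact List.mem_cons_of_mem _ hx, hxq⟩
      · simp only [List.map_cons, List.sum_cons]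
        omega

/-- A prefix of a concatenation of periodic words. -/
lemma pieces_prefix : ∀ (L : List (List Bool × ℕ)) (X : List Bool),
    (∀ a ∈ L, 1 ≤ a.2 ∧ ∀ i, i + a.2 < a.1.length → a.1[i + a.2]? = a.1[i]?) →
    X <+: (L.map Prod.fst).flatten →
    ∃ L' : List (List Bool × ℕ), PeriodicPieces L' X ∧
      (L'.map Prod.snd).sum ≤ (L.map Prod.snd).sum ∧
      (L'.map fun a => 2 * a.2 - 1).sum ≤ (L.map fun a => 2 * a.2 - 1).sum ∧
      (∀ a' ∈ L', ∃ a ∈ L, a'.2 = a.2)
  | [], X, _, h => by
    refine ⟨[], ⟨by simp, ?_⟩, by simp, by simp, by simp⟩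
    simp only [List.map_nil, List.flatten_nil] at h ⊢
    exact (List.prefix_nil.1 h).symm
  | a :: L, X, hL, h => by
    simp only [List.map_cons, List.flatten_cons] at h
    rcases prefix_append_cases h with h1 | ⟨t, ht, h2⟩
    · refine ⟨[(X, a.2)], ⟨?_, by simp⟩, by simp, by simp, ?_⟩
      · intro b hb
        rw [List.mem_singleton] at hb
        subst hb
        have ha := hL a (by simp)
        refine ⟨ha.1, ?_⟩
        intro i hi
        obtain ⟨s, hs⟩ := h1
        have h3 := ha.2 i (by rw [← hs]; simp at hi ⊢; omega)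
        simp only at hi ⊢
        rw [← hs, List.getElem?_append_left (by omega), List.getElem?_append_left (by omega)] at h3
        exact h3
      · intro a' ha'
        rw [List.mem_singleton] at ha'
        subst ha'
        exact ⟨a, by simp, rfl⟩
    · obtain ⟨L', ⟨h3, h4⟩, h5, h6, h7⟩ := pieces_prefix L t (fun b hb => hL b (by simp [hb])) h2
      refine ⟨a :: L', ⟨?_, ?_⟩, ?_, ?_, ?_⟩
      · intro b hb
        rcases List.mem_cons.1 hb with h8 | h8
        · rw [h8]; exact hL a (by simp)
        · exact h3 b h8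
      · rw [List.map_cons, List.flatten_cons, h4, ht]
      · simp only [List.map_cons, List.sum_cons]; omega
      · simp only [List.map_cons, List.sum_cons]; omega
      · intro a' ha'
        rcases List.mem_cons.1 ha' with h8 | h8
        · exact ⟨a, by simp, by rw [h8]⟩
        · obtain ⟨b, hb, hb'⟩ := h7 a' h8
          exact ⟨b, by simp [hb], hb'⟩

end DeckB
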