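import Pool.Agent.DeckB.Rep

/-!
# Locally repetitive strings: the theorems
-/

namespace DeckB

open DeckA Polynomial

lemma two_mul_sum (d : Bool) : ∀ L : List (List Bool × ℕ),
    2 * (L.map fun a => if d ∈ a.1 then 2 * a.2 - 1 else 0).sum
      = (L.map fun a => if d ∈ a.1 then 4 * a.2 - 2 else 0).sum
  | [] => rfl
  | a :: L => by
    have ih := two_mul_sum d L
    simp only [List.map_cons, List.sum_cons]
    split_ifs <;> omega

lemma snd_le_sum : ∀ L : List (List Bool × ℕ), ∀ a ∈ L, a.2 ≤ (L.map Prod.snd).sum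
  | [], a, h => by simp at h
  | b :: L, a, h => by
    simp only [List.map_cons, List.sum_cons]
    rcases List.mem_cons.1 h with h | h
    · rw [h]; omega
    · have := snd_le_sum L a h; omega

lemma sum_le_two_mul (d : Bool) : ∀ L : List (List Bool × ℕ),
    (L.map fun a => if d ∈ a.1 then 2 * a.2 - 1 else 0).sum ≤ 2 * (L.map Prod.snd).sum
  | [] => by simp
  | a :: L => by
    have ih := sum_le_two_mul d L
    simp only [List.map_cons, List.sum_cons]
    split_ifs <;> omega

/-- **Concatenations of periodic words.** -/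
theorem recon_of_pieces {n k : ℕ} (hkn : k ≤ n) (x : Fin n → Bool) (L : List (List Bool × ℕ))
    (b : List Bool × ℕ) (hL : PeriodicPieces (L ++ [b]) (List.ofFn x))
    (hk : ∀ c : Bool, (L.map fun a => if c ∈ a.1 then 4 * a.2 - 2 else 0).sum + 2 * (b.2 - 1) < k) :
    Reconstructible k x := by
  set N : ℕ := n + ((L ++ [b]).map Prod.snd).sum + 1 with hN
  obtain ⟨l, hl⟩ : ∃ l, k = 2 * l + 1 ∨ k = 2 * l + 2 := by
    have := hk true
    exact ⟨(k - 1) / 2, by omega⟩
  apply crit_trans (l := l) (by omega) hkn
  intro X p c hx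
  have hpre : X ++ [c] <+: ((L ++ [b]).map Prod.fst).flatten := by
    rw [hL.2, hx]
    exact ⟨p, by simp⟩
  obtain ⟨L', W, q, e1, e2, e3, e4, e5, e6, e7⟩ :=
    pieces_prefix_last (!c) b L (X ++ [c]) hL.1 hpre (by simp)
  have hlen : (X ++ [c]).length ≤ n := by
    have := hpre.length_le
    rw [hL.2] at this
    simpa using this
  have hWlast : W.getLast? = some c := by
    have h1 : (X ++ [c]).getLast? = some c := by simp
    rwa [e1, List.getLast?_append_of_ne_nil _ e2] at h1
  have hqN : q ≤ N := by
    obtain ⟨a, ha, hqa⟩ := e6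
    have := snd_le_sum (L ++ [b]) a ha
    omega
  have hlenW : ((L'.map Prod.fst).flatten ++ W).length ≤ N := by
    rw [← e1]; omega
  obtain ⟨B, hB⟩ : ∃ B, Good N (if (!c) ∈ W then q - 1 else 0) B W [] c := by
    split_ifs with hmem
    · exact good_last (by omega) e3 hqN e4 hWlast
    · exact ⟨1, good_pure _ _ le_rfl _ hmem⟩
  have hY := good_pieces (N := N) (by omega) c L' W (fun a ha => by
      have h1 := hL.1 a (by simp [e5 a ha])
      have h2 := snd_le_sum (L ++ [b]) a (by simp [e5 a ha])
      exact ⟨h1.1, by omega, h1.2⟩) hlenW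
    (fun _ => by rw [← e1]; simp)
  rw [← List.append_nil W] at hY
  obtain ⟨f, f1, f2, f3, -⟩ := hB.comp hY
  refine ⟨f, PolR_mono ?_ f1, f2, ?_⟩
  · have h1 := hk (!c)
    have h2 := two_mul_sum (!c) L
    omega
  · intro z hz
    have := f3 z (by rw [← e1]; exact hz)
    rw [List.append_nil] at this
    rw [this]
    simp

/-- **Strings which are locally concatenations of periodic words.** -/
theorem recon_of_local_pieces {n S m k : ℕ} (hn : 2 ≤ n) (hS : 1 ≤ S) (hSn : S ≤ n) (hm : 1 ≤ m)
    (x : Fin n → Bool)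
    (hx : ∀ W : List Bool, W <:+: List.ofFn x → W.length = S →
      ∃ L : List (List Bool × ℕ), PeriodicPieces L W ∧ (L.map Prod.snd).sum ≤ m)
    (hk : 50 * m * Real.sqrt (n / S) * Real.log n ≤ k) (hkn : k ≤ n) :
    Reconstructible k x := by
  have hn0 : (0 : ℝ) < n := by exact_mod_cast (by omega : 0 < n)
  have hS0 : (0 : ℝ) < S := by exact_mod_cast hS
  have hm1 : (1 : ℝ) ≤ m := by exact_mod_cast hm
  have hl0 := half_le_log hn
  set l : ℝ := Real.log n with hl
  set T : ℝ := Real.sqrt (n / S) with hT
  have hT1 : 1 ≤ T := by rw [hT, Real.one_le_sqrt, one_le_div hS0]; exact_mod_cast hSn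
  have hTl : 1 / 2 ≤ T * l := by nlinarith
  have hmn : m ≤ n := by
    have h1 : (m : ℝ) ≤ n := by
      have h2 : (k : ℝ) ≤ n := by exact_mod_cast hkn
      have h3 : (m : ℝ) ≤ 50 * m * T * l := by nlinarith
      linarith
    exact_mod_cast h1
  set M : ℝ := (16 * (n : ℝ)) ^ (3 * m) with hM
  have h16 : (1 : ℝ) ≤ 16 * n := by
    have : (1 : ℝ) ≤ n := by exact_mod_cast (by omega : 1 ≤ n)
    linarith
  have hM1 : 1 ≤ M := one_le_pow₀ h16
  have hs : 0 < Real.sqrt n := Real.sqrt_pos.2 hn0
  set ε : ℝ := 1 / (M * Real.sqrt n) with hε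
  have hε0 : 0 < ε := by positivity
  set m₂ : ℕ := ⌈T * Real.log (2 / ε)⌉₊ with hm₂
  obtain ⟨P, p1, p2, p3, p4, -⟩ := exists_cheb (N := n) (g := S) (ε := ε) hS0
    (by exact_mod_cast hSn) hε0 (m := m₂) (Nat.le_ceil _)
  -- the size of the degree
  have hlogε : Real.log (2 / ε) ≤ 33 / 2 * m * l := by
    have e1 : 2 / ε = (2 * Real.sqrt n) * M := by rw [hε]; field_simp
    rw [e1, Real.log_mul (by positivity) (by positivity), hM, Real.log_pow,
      Real.log_mul (by norm_num) hn0.ne']
    have e2 := log_two_sqrt hn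
    have e3 : Real.log 16 ≤ 4 * l := by
      have e4 : Real.log 16 = 4 * Real.log 2 := by
        rw [show (16 : ℝ) = 2 ^ 4 by norm_num, Real.log_pow]; norm_num
      have e5 : Real.log 2 ≤ l := Real.log_le_log two_pos (by exact_mod_cast hn)
      linarith
    push_cast
    have e6 : 3 * (m : ℝ) * (Real.log 16 + l) ≤ 3 * m * (5 * l) :=
      mul_le_mul_of_nonneg_left (by linarith) (by positivity)
    have e7 : l ≤ m * l := by nlinarith
    linarith
  have hlogε0 : 0 ≤ Real.log (2 / ε) := by
    apply Real.log_nonneg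
    have e1 : 2 / ε = (2 * Real.sqrt n) * M := by rw [hε]; field_simp
    have e2 : 1 ≤ Real.sqrt n := by
      rw [Real.one_le_sqrt]; exact_mod_cast (by omega : 1 ≤ n)
    rw [e1]
    exact one_le_mul_of_one_le_of_one_le (by linarith) hM1
  have hm₂' : (m₂ : ℝ) ≤ 33 / 2 * (m * (T * l)) + 1 := by
    have e1 : (m₂ : ℝ) ≤ T * Real.log (2 / ε) + 1 :=
      (Nat.ceil_lt_add_one (by positivity)).le
    have e2 := mul_le_mul_of_nonneg_left hlogε (by positivity : 0 ≤ T)
    linarith
  apply crit_trans (l := 2 * m + m₂) _ hkn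
  · intro X p c hxX
    set X' : List Bool := X ++ [c] with hX'
    have hpre : X' <+: List.ofFn x := by rw [hxX]; exact ⟨p, by simp [hX']⟩
    have hlenx : (List.ofFn x).length = n := by simp
    have hlenX : X'.length ≤ n := by rw [← hlenx]; exact hpre.length_le
    -- the last window
    obtain ⟨Y, W, L, hYW, hLW, hLm, hYS⟩ : ∃ (Y W : List Bool) (L : List (List Bool × ℕ)),
        X' = Y ++ W ∧ PeriodicPieces L W ∧ (L.map Prod.snd).sum ≤ m ∧
        (Y = [] ∨ W.length = S) := by
      rcases Nat.lt_or_ge X'.length S with h | h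
      · obtain ⟨L, h1, h2⟩ := hx ((List.ofFn x).take S) (List.take_prefix _ _).isInfix
          (by rw [List.length_take, hlenx]; omega)
        have h3 : X' <+: (L.map Prod.fst).flatten := by
          rw [h1.2]
          rw [List.prefix_take_iff]
          exact ⟨hpre, h.le⟩
        obtain ⟨L', h4, h5, -, -⟩ := pieces_prefix L X' h1.1 h3
        exact ⟨[], X', L', by simp, h4, h5.trans h2, Or.inl rfl⟩
      · have h1 : X'.drop (X'.length - S) <:+: List.ofFn x :=
          (List.drop_suffix _ _).isInfix.trans hpre.isInfix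
        have h2 : (X'.drop (X'.length - S)).length = S := by rw [List.length_drop]; omega
        obtain ⟨L, h3, h4⟩ := hx _ h1 h2
        exact ⟨X'.take (X'.length - S), X'.drop (X'.length - S), L,
          (List.take_append_drop _ _).symm, h3, h4, Or.inr h2⟩
    have hlast : W ≠ [] → (W ++ []).getLast? = some c := by
      intro h0
      have h1 : X'.getLast? = some c := by rw [hX']; simp
      rw [hYW, List.getLast?_append_of_ne_nil _ h0] at h1
      rwa [List.append_nil]
    have hWn : W.length ≤ n := by
      rw [hYW, List.length_append] at hlenX; omega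
    obtain ⟨f, f1, f2, f3, f4⟩ := good_pieces (N := n) (by omega) c L [] (fun a ha => by
      have h1 := snd_le_sum L a ha
      exact ⟨(hLW.1 a ha).1, by omega, (hLW.1 a ha).2⟩) (by rw [hLW.2]; simpa using hWn)
      (fun h0 => by rw [hLW.2] at h0 ⊢; exact hlast h0)
    rw [hLW.2] at f3
    refine ⟨f * fun w => P.eval (w.length : ℝ), ?_, ?_, ?_⟩
    · refine mul_mem (PolR_mono ?_ f1) (poly_len_mem P p1)
      exact (sum_le_two_mul _ L).trans (Nat.mul_le_mul_left 2 hLm)
    · simp [f2, p2]
    · intro z hz
      have hzlen : z.length + 1 ≤ X'.length := by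
        have := hz.length_le
        simpa using this
      by_cases hzW : z.length + 1 ≤ W.length
      · have h1 : (!c) :: z <:+ W := by
          apply List.suffix_of_suffix_length_le hz
          · rw [hYW]; exact List.suffix_append _ _
          · simpa using hzW
        have h2 := f3 z h1
        rw [List.append_nil] at h2
        rw [Pi.mul_apply, h2]
        simp
      · have hWS : W.length = S := by
          rcases hYS with h | h
          · exfalso
            rw [hYW, h, List.nil_append] at hzlen
            exact hzW hzlen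
          · exact h
        have hzS : (S : ℝ) ≤ z.length := by exact_mod_cast (by omega : S ≤ z.length)
        have hzn : (z.length : ℝ) ≤ n := by exact_mod_cast (by omega : z.length ≤ n)
        apply sq_mul_le hn0
        rw [Pi.mul_apply, abs_mul]
        have h1 : |f z| ≤ M := by
          refine (f4 z (by omega)).trans ?_
          exact pow_le_pow_right₀ h16 (by omega)
        have h2 := p4 z.length hzS hzn
        calc |f z| * |P.eval (z.length : ℝ)| ≤ M * ε :=
              mul_le_mul h1 h2 (abs_nonneg _) (by positivity)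
          _ = 1 / Real.sqrt n := by rw [hε]; field_simp
  · have e1 : ((2 * (2 * m + m₂) + 1 : ℕ) : ℝ) ≤ k := by
      refine le_trans ?_ hk
      push_cast
      have e2 : (m : ℝ) ≤ 2 * (m * (T * l)) := by nlinarith
      have e3 : (1 : ℝ) ≤ 2 * (m * (T * l)) := by nlinarith
      have e4 : 50 * (m : ℝ) * T * l = 50 * (m * (T * l)) := by ring
      rw [e4]
      linarith
    exact_mod_cast e1

end DeckB
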