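import Pool.Agent.DeckB.Window

/-!
# Densities of finite Diophantine type
-/

namespace DeckB

open DeckA

/-- Strings which are locally of low discrepancy with respect to densities of Diophantine type
`τ`. -/
theorem recon_of_type {n S k : ℕ} {R c τ : ℝ} (hτ : 1 ≤ τ) (hc : 0 < c)
    (hR : 1 ≤ R) (hRS : R ^ 2 ≤ S) (hS : 2 ≤ S) (hSn : S ≤ n) (x : Fin n → Bool) (ρ : ℕ → ℝ)
    (hρ : ∀ s ≤ n, ∀ q : ℕ, 1 ≤ q → ∀ a : ℤ, c * (q : ℝ) ^ (-τ) ≤ |q * ρ s - a|)
    (hx : ∀ s ≤ n, ∀ t ≤ s, s ≤ t + S → |(ones x s : ℝ) - ones x t - ρ s * (s - t)| ≤ R)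
    (hk : 400 * (1 + 2 ^ τ / c) * Real.sqrt n * (R ^ 2 / S) ^ (1 / (4 * τ + 2)) * Real.log n ≤ k)
    (hkn : k ≤ n) : Reconstructible k x := by
  have hn : 2 ≤ n := hS.trans hSn
  have hR0 : 0 < R := by linarith
  have hn0 : (0 : ℝ) < n := by exact_mod_cast (by omega : 0 < n)
  have hS0 : (0 : ℝ) < S := by exact_mod_cast (by omega : 0 < S)
  have hl0 := half_le_log hn
  set e : ℝ := 1 / (2 * τ + 1) with he
  have he0 : 0 < e := by positivity
  have he1 : e ≤ 1 := by rw [he, div_le_one (by linarith)]; linarith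
  have he2 : 1 - 2 * (τ * e) = e := by rw [he]; field_simp; ring
  have he3 : 1 / (4 * τ + 2) = e / 2 := by rw [he]; field_simp; ring
  set Y : ℝ := S / R ^ 2 with hY
  have hY1 : 1 ≤ Y := by rw [hY, one_le_div (by positivity)]; exact hRS
  have hY0 : 0 < Y := by linarith
  have hYS : Y ≤ S := by
    rw [hY, div_le_iff₀ (by positivity)]
    have : (1 : ℝ) ≤ R ^ 2 := one_le_pow₀ hR
    nlinarith
  set X : ℝ := Y ^ e with hX
  have hX1 : 1 ≤ X := Real.one_le_rpow hY1 he0.le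
  have hXS : X ≤ S := by
    have h1 : Y ^ e ≤ Y ^ (1 : ℝ) := Real.rpow_le_rpow_of_exponent_le hY1 he1
    rw [Real.rpow_one] at h1
    exact h1.trans hYS
  set Q : ℕ := ⌈X⌉₊ with hQ
  have hQX : X ≤ Q := Nat.le_ceil _
  have hQ1 : 1 ≤ Q := by
    have : (1 : ℝ) ≤ Q := hX1.trans hQX
    exact_mod_cast this
  have hQ0 : (0 : ℝ) < Q := by exact_mod_cast hQ1
  have hQS : Q ≤ S := Nat.ceil_le.2 hXS
  have hQ2 : (Q : ℝ) ≤ 2 * X := by
    have := (Nat.ceil_lt_add_one (by positivity : 0 ≤ X)).le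
    linarith
  have hc1 : c ≤ 1 := by
    have h1 := hρ 0 (Nat.zero_le _) 1 le_rfl (round (ρ 0))
    rw [Nat.cast_one, Real.one_rpow, one_mul, mul_one] at h1
    have h2 := abs_sub_round (ρ 0)
    linarith
  set δ : ℝ := c * (Q : ℝ) ^ (-τ) with hδ
  have hδ0 : 0 < δ := by positivity
  have hδR : δ ≤ R := by
    have h1 : (Q : ℝ) ^ (-τ) ≤ 1 :=
      Real.rpow_le_one_of_one_le_of_nonpos (by exact_mod_cast hQ1) (by linarith)
    calc δ ≤ c * 1 := mul_le_mul_of_nonneg_left h1 hc.le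
      _ ≤ R := by linarith
  -- the size of the bound
  have hE : (R ^ 2 / S) ^ (1 / (4 * τ + 2)) = Y ^ (-(e / 2)) := by
    rw [he3, Real.rpow_neg hY0.le, ← Real.inv_rpow hY0.le, hY, inv_div]
  have b1 : Real.sqrt (n / Q) ≤ Real.sqrt n * Y ^ (-(e / 2)) := by
    have h1 : Real.sqrt (n / Q) ≤ Real.sqrt (n / X) :=
      Real.sqrt_le_sqrt (div_le_div_of_nonneg_left hn0.le (by positivity) hQX)
    refine h1.trans (le_of_eq ?_)
    rw [Real.sqrt_div hn0.le, hX, Real.sqrt_eq_rpow (Y ^ e), ← Real.rpow_mul hY0.le,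
      Real.rpow_neg hY0.le, div_eq_mul_inv]
    congr 3
    ring
  have b2 : Real.sqrt (n / S) * (R / δ) ≤ 2 ^ τ / c * (Real.sqrt n * Y ^ (-(e / 2))) := by
    have h1 : R / δ = R * (Q : ℝ) ^ τ / c := by
      rw [hδ, Real.rpow_neg hQ0.le]
      field_simp
    have h2 : (Q : ℝ) ^ τ ≤ 2 ^ τ * X ^ τ := by
      rw [← Real.mul_rpow (by norm_num) (by positivity)]
      exact Real.rpow_le_rpow hQ0.le hQ2 (by linarith)
    have h3 : Real.sqrt (n / S) * R = Real.sqrt n * Y ^ (-(1 / 2) : ℝ) := by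
      have h4 : Real.sqrt (n / S) = Real.sqrt n * Real.sqrt (1 / S) := by
        rw [← Real.sqrt_mul hn0.le]; congr 1; ring
      have h5 : Real.sqrt (1 / S) * R = Y ^ (-(1 / 2) : ℝ) := by
        rw [Real.rpow_neg hY0.le, ← Real.sqrt_eq_rpow, ← Real.sqrt_inv, hY, inv_div]
        rw [div_eq_mul_one_div (R ^ 2) (S : ℝ), Real.sqrt_mul (by positivity),
          Real.sqrt_sq hR0.le]
        ring
      rw [h4, mul_assoc, h5]
    have h4 : Y ^ (-(1 / 2) : ℝ) * X ^ τ = Y ^ (-(e / 2)) := by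
      rw [hX, ← Real.rpow_mul hY0.le, ← Real.rpow_add hY0]
      congr 1
      have : e * τ = (1 - e) / 2 := by linarith
      rw [this]; ring
    rw [h1]
    calc Real.sqrt (n / S) * (R * (Q : ℝ) ^ τ / c)
        = (Real.sqrt (n / S) * R) * (Q : ℝ) ^ τ / c := by ring
      _ ≤ (Real.sqrt (n / S) * R) * (2 ^ τ * X ^ τ) / c := by
          apply div_le_div_of_nonneg_right _ hc.le
          exact mul_le_mul_of_nonneg_left h2 (by positivity)
      _ = 2 ^ τ / c * (Real.sqrt n * (Y ^ (-(1 / 2) : ℝ) * X ^ τ)) := by rw [h3]; ring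
      _ = _ := by rw [h4]
  refine recon_of_window hn hδ0 hδR hQ1 hQS hS hSn x ρ hx ?_ ?_ hkn
  · intro s hs q hq1 hq2 a
    refine le_trans ?_ (hρ s hs q hq1 a)
    apply mul_le_mul_of_nonneg_left _ hc.le
    have hq0 : (0 : ℝ) < q := by exact_mod_cast hq1
    exact Real.rpow_le_rpow_of_nonpos hq0 (by exact_mod_cast hq2.le) (by linarith)
  · refine le_trans ?_ hk
    rw [hE]
    have h1 : 400 * (Real.sqrt (n / S) * (R / δ) + Real.sqrt (n / Q))
        ≤ 400 * (1 + 2 ^ τ / c) * Real.sqrt n * Y ^ (-(e / 2)) := by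
      calc 400 * (Real.sqrt (n / S) * (R / δ) + Real.sqrt (n / Q))
          ≤ 400 * (2 ^ τ / c * (Real.sqrt n * Y ^ (-(e / 2))) + Real.sqrt n * Y ^ (-(e / 2))) := by
            linarith
        _ = _ := by ring
    exact mul_le_mul_of_nonneg_right h1 (by linarith)

end DeckB
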