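import Pool.Agent.DeckB.Disc

/-!
# Strings which are locally of low discrepancy
-/

namespace DeckB

open DeckA Polynomial

/-! ## Chaining of the windows -/

lemma chain {n S H : ℕ} {R : ℝ} (hR : 0 ≤ R) (hH : 1 ≤ H) (hHS : 2 * H ≤ S) (A ρ : ℕ → ℝ)
    (h : ∀ s ≤ n, ∀ t ≤ s, s ≤ t + S → |A s - A t - ρ s * (s - t)| ≤ R) :
    ∀ j : ℕ, ∀ s ≤ n, ∀ t ≤ s, s ≤ t + (j + 2) * H →
      |A s - A t - ρ s * (s - t)| ≤ R * (2 * j + 1) ^ 2
  | 0, s, hs, t, ht, hst => by
    have := h s hs t ht (by omega)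
    simpa using this
  | j + 1, s, hs, t, ht, hst => by
    by_cases h2 : s ≤ t + 2 * H
    · have h3 := h s hs t ht (by omega)
      refine h3.trans ?_
      have h4 : (1 : ℝ) ≤ (2 * ((j + 1 : ℕ) : ℝ) + 1) ^ 2 := by
        have : (0 : ℝ) ≤ ((j + 1 : ℕ) : ℝ) := Nat.cast_nonneg _
        nlinarith
      calc R = R * 1 := (mul_one R).symm
        _ ≤ _ := mul_le_mul_of_nonneg_left h4 hR
    · obtain ⟨s', hs'⟩ : ∃ s', s = s' + H := ⟨s - H, by omega⟩
      obtain ⟨r, hr⟩ : ∃ r, s' = r + H := ⟨s' - H, by omega⟩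
      have hH0 : (0 : ℝ) < H := by exact_mod_cast hH
      have ih := chain hR hH hHS A ρ h j s' (by omega) t (by omega)
        (by rw [show j + 1 + 2 = (j + 2) + 1 by ring, add_mul] at hst; omega)
      have w1 := h s hs s' (by omega) (by omega)
      have w2 := h s hs r (by omega) (by omega)
      have w3 := h s' (by omega) r (by omega) (by omega)
      have c1 : (s : ℝ) = s' + H := by rw [hs']; push_cast; ring
      have c2 : (s' : ℝ) = r + H := by rw [hr]; push_cast; ring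
      have c3 : (s' : ℝ) - t ≤ (j + 2) * H := by
        have : (s' : ℝ) ≤ t + (j + 2) * H := by
          have h4 : s' ≤ t + (j + 2) * H := by
            rw [show j + 1 + 2 = (j + 2) + 1 by ring, add_mul] at hst; omega
          exact_mod_cast h4
        linarith
      have c4 : (0 : ℝ) ≤ (s' : ℝ) - t := by
        have : (t : ℝ) ≤ s' := by exact_mod_cast (by omega : t ≤ s')
        linarith
      -- the two slopes are close
      have hslope : |(ρ s' - ρ s) * H| ≤ 3 * R := by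
        have e : (ρ s' - ρ s) * H = (A s - A r - ρ s * (s - r)) - (A s - A s' - ρ s * (s - s'))
            - (A s' - A r - ρ s' * (s' - r)) := by
          rw [c1, c2]; ring
        rw [e]
        rw [abs_le] at w1 w2 w3 ⊢
        constructor <;> linarith
      have hdev : |(ρ s' - ρ s) * (s' - t)| ≤ 3 * R * (j + 2) := by
        have e : |(ρ s' - ρ s) * (s' - t)| = |ρ s' - ρ s| * (s' - t) := by
          rw [abs_mul, abs_of_nonneg c4]
        have e2 : |ρ s' - ρ s| * H ≤ 3 * R := by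
          rwa [abs_mul, abs_of_pos hH0] at hslope
        rw [e]
        calc |ρ s' - ρ s| * (s' - t) ≤ |ρ s' - ρ s| * ((j + 2) * H) :=
              mul_le_mul_of_nonneg_left c3 (abs_nonneg _)
          _ = |ρ s' - ρ s| * H * (j + 2) := by ring
          _ ≤ 3 * R * (j + 2) := mul_le_mul_of_nonneg_right e2 (by positivity)
      have e : A s - A t - ρ s * (s - t) = (A s - A s' - ρ s * (s - s'))
          + (A s' - A t - ρ s' * (s' - t)) + (ρ s' - ρ s) * (s' - t) := by ring
      rw [e]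
      have hj : (0 : ℝ) ≤ (j : ℝ) := Nat.cast_nonneg _
      calc _ ≤ |A s - A s' - ρ s * (s - s')| + |A s' - A t - ρ s' * (s' - t)|
            + |(ρ s' - ρ s) * (s' - t)| := abs_add_three _ _ _
        _ ≤ R + R * (2 * j + 1) ^ 2 + 3 * R * (j + 2) := by linarith
        _ ≤ R * (2 * ((j + 1 : ℕ) : ℝ) + 1) ^ 2 := by
          push_cast
          have : R * (2 * ((j : ℝ) + 1) + 1) ^ 2 - (R + R * (2 * j + 1) ^ 2 + 3 * R * (j + 2))
              = R * (5 * j + 1) := by ring
          have h5 : 0 ≤ R * (5 * j + 1) := by positivity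
          linarith

/-- Growth of the deviation beyond the window. -/
lemma chain' {n S : ℕ} {R : ℝ} (hR : 0 ≤ R) (hS : 2 ≤ S) (A ρ : ℕ → ℝ)
    (h : ∀ s ≤ n, ∀ t ≤ s, s ≤ t + S → |A s - A t - ρ s * (s - t)| ≤ R) {s t : ℕ} (hs : s ≤ n)
    (ht : t + S ≤ s) : |A s - A t - ρ s * (s - t)| ≤ R * (36 * (((s : ℝ) - t) / S) ^ 2) := by
  set H : ℕ := S / 2 with hH
  have hH1 : 1 ≤ H := by omega
  have hHS : 2 * H ≤ S := by omega
  have h3H : S ≤ 3 * H := by omega
  obtain ⟨u, hu⟩ : ∃ u, s = t + u := ⟨s - t, by omega⟩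
  have huS : S ≤ u := by omega
  obtain ⟨j, hj⟩ : ∃ j, u / H = j + 1 := by
    have : 1 ≤ u / H := (Nat.one_le_div_iff (by omega)).2 (by omega)
    exact ⟨u / H - 1, by omega⟩
  have h1 : u < (j + 2) * H := by
    have h2 : u < H * (u / H + 1) := Nat.lt_mul_div_succ u (by omega)
    rw [hj] at h2
    calc u < H * (j + 1 + 1) := h2
      _ = (j + 2) * H := by ring
  have h2 := chain hR hH1 hHS A ρ h j s hs t (by omega) (by omega)
  refine h2.trans (mul_le_mul_of_nonneg_left ?_ hR)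
  have hS0 : (0 : ℝ) < S := by exact_mod_cast (by omega : 0 < S)
  have hH0 : (0 : ℝ) < H := by exact_mod_cast hH1
  have h4 : ((j + 1 : ℕ) : ℝ) * H ≤ u := by
    rw [← hj]
    exact_mod_cast Nat.div_mul_le_self u H
  have h5 : (S : ℝ) ≤ 3 * H := by exact_mod_cast h3H
  have h6 : (2 * (j : ℝ) + 1) ≤ 6 * (((s : ℝ) - t) / S) := by
    have e : (s : ℝ) - t = u := by rw [hu]; push_cast; ring
    rw [e]
    have h7 : ((j + 1 : ℕ) : ℝ) ≤ 3 * ((u : ℝ) / S) := by
      rw [← mul_div_assoc, le_div_iff₀ hS0]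
      have hj0 : (0 : ℝ) ≤ ((j + 1 : ℕ) : ℝ) := Nat.cast_nonneg _
      calc ((j + 1 : ℕ) : ℝ) * S ≤ ((j + 1 : ℕ) : ℝ) * (3 * H) :=
            mul_le_mul_of_nonneg_left h5 hj0
        _ = 3 * (((j + 1 : ℕ) : ℝ) * H) := by ring
        _ ≤ 3 * u := by linarith
    push_cast at h7
    linarith
  have h7 : (0 : ℝ) ≤ 2 * (j : ℝ) + 1 := by positivity
  calc (2 * (j : ℝ) + 1) ^ 2 ≤ (6 * (((s : ℝ) - t) / S)) ^ 2 := pow_le_pow_left₀ h7 h6 2
    _ = _ := by ring

/-! ## The test functions -/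

lemma growth_le {x : ℝ} {i : ℕ} (hx1 : 1 ≤ x) (hx2 : x < 4 ^ (i + 1)) :
    7 + 8 * (36 * x ^ 2) ^ 2 ≤ Real.exp (16 + 6 * i) := by
  have h1 : x ^ 4 ≤ (4 ^ (i + 1)) ^ 4 := pow_le_pow_left₀ (by linarith) hx2.le 4
  have h2 : (1 : ℝ) ≤ x ^ 4 := one_le_pow₀ hx1
  have h3 : ((4 : ℝ) ^ (i + 1)) ^ 4 = 256 * 256 ^ i := by
    rw [← pow_mul, show (i + 1) * 4 = 4 * (i + 1) by ring, pow_mul, pow_succ]
    norm_num
    ring
  have h4 : (256 : ℝ) ^ i ≤ Real.exp (6 * i) := by
    have e1 : (256 : ℝ) ≤ Real.exp 6 := by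
      have e2 : (2.7 : ℝ) ^ 6 ≤ Real.exp 1 ^ 6 :=
        pow_le_pow_left₀ (by norm_num) (by have := Real.exp_one_gt_d9; linarith) 6
      rw [← Real.exp_nat_mul] at e2
      norm_num at e2
      linarith
    calc (256 : ℝ) ^ i ≤ Real.exp 6 ^ i := pow_le_pow_left₀ (by norm_num) e1 i
      _ = Real.exp (6 * i) := by rw [← Real.exp_nat_mul]; ring_nf
  have h5 : (10375 : ℝ) * 256 ≤ Real.exp 16 := by
    have e2 : (2.7 : ℝ) ^ 16 ≤ Real.exp 1 ^ 16 :=
      pow_le_pow_left₀ (by norm_num) (by have := Real.exp_one_gt_d9; linarith) 16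
    rw [← Real.exp_nat_mul] at e2
    norm_num at e2
    linarith
  have h6 : (0 : ℝ) < 256 ^ i := by positivity
  have h7 : 7 + 8 * (36 * x ^ 2) ^ 2 ≤ 10375 * x ^ 4 := by
    have : 8 * (36 * x ^ 2) ^ 2 = 10368 * x ^ 4 := by ring
    rw [this]; linarith
  rw [Real.exp_add]
  calc 7 + 8 * (36 * x ^ 2) ^ 2 ≤ 10375 * x ^ 4 := h7
    _ ≤ 10375 * (256 * 256 ^ i) := by rw [← h3]; linarith
    _ = (10375 * 256) * 256 ^ i := by ring
    _ ≤ Real.exp 16 * Real.exp (6 * i) := mul_le_mul h5 h4 h6.le (Real.exp_pos _).le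

/-- The test functions for a statistic which is good on a window. -/
theorem exists_test_window {x : List Bool} {n S Q m₁ m₂ J : ℕ} {R δ : ℝ} (mB : ℕ → ℕ)
    (hx : x.length = n) (hn : 1 ≤ n)
    (hδ : 0 < δ) (hδR : δ ≤ R) (hQ : 1 ≤ Q) (hQS : Q ≤ S) (hSn : S ≤ n)
    (hJ : (n : ℝ) < 4 ^ J * S)
    (hm₁ : R / δ * Real.log (2 * Real.sqrt n) ≤ m₁)
    (hm₂ : Real.sqrt (n / Q) * Real.log (2 * Real.sqrt n) ≤ m₂)
    (hmB : ∀ i < J, (4 : ℝ) ^ i * S ≤ n → Real.sqrt (n / (4 ^ i * S)) *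
      (Real.log (2 * Real.sqrt n) + m₁ * (16 + 6 * i)) ≤ mB i)
    {p : List Bool} {G : List Bool → ℝ} (hG : G ∈ PolR 1) (hGp : G p = 0)
    (hG1 : ∀ v : List Bool, v <:+ x → p.length < v.length → v.length ≤ p.length + S → |G v| ≤ R)
    (hG2 : ∀ v : List Bool, v <:+ x → p.length < v.length → v.length < p.length + Q → δ ≤ |G v|)
    (hG3 : ∀ v : List Bool, v <:+ x → p.length + S ≤ v.length →
      |G v| ≤ R * (36 * (((v.length : ℝ) - p.length) / S) ^ 2)) :
    ∃ f ∈ PolR (m₁ * 2 + m₂ + ∑ i ∈ Finset.range J, mB i), f p = 1 ∧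
      ∀ v : List Bool, v <:+ x → p.length < v.length → (f v) ^ 2 * (n : ℝ) ≤ 1 := by
  have hn0 : (0 : ℝ) < n := by exact_mod_cast hn
  have hQ0 : (0 : ℝ) < Q := by exact_mod_cast hQ
  have hS0 : (0 : ℝ) < S := by exact_mod_cast (by omega : 0 < S)
  have hs : 0 < Real.sqrt n := Real.sqrt_pos.2 hn0
  have hR : 0 < R := hδ.trans_le hδR
  have heps : 2 / (1 / Real.sqrt n) = 2 * Real.sqrt n := by
    rw [div_div_eq_mul_div, div_one]
  obtain ⟨P₁, hd1, h01, hb1, he1, hg1⟩ := exists_cheb (N := R ^ 2) (g := δ ^ 2)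
    (ε := 1 / Real.sqrt n) (by positivity) (pow_le_pow_left₀ hδ.le hδR 2) (by positivity)
    (m := m₁) (by
      rw [heps, ← div_pow, Real.sqrt_sq (by positivity)]
      exact hm₁)
  obtain ⟨P₂, hd2, h02, hb2, he2, -⟩ := exists_cheb (N := n) (g := Q)
    (ε := 1 / Real.sqrt n) hQ0 (by exact_mod_cast hQS.trans hSn) (by positivity)
    (m := m₂) (by rw [heps]; exact hm₂)
  have hB : ∀ i : ℕ, ∃ P : ℝ[X], i < J → P.natDegree ≤ mB i ∧ P.eval 0 = 1 ∧
      (∀ u : ℝ, 0 ≤ u → u ≤ n → |P.eval u| ≤ 1) ∧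
      (∀ u : ℝ, 4 ^ i * (S : ℝ) ≤ u → u ≤ n →
        |P.eval u| ≤ Real.exp (-(m₁ * (16 + 6 * i))) * (1 / Real.sqrt n)) := by
    intro i
    by_cases hi : i < J ∧ (4 : ℝ) ^ i * S ≤ n
    · obtain ⟨P, a1, a2, a3, a4, -⟩ := exists_cheb (N := n) (g := 4 ^ i * S)
        (ε := Real.exp (-(m₁ * (16 + 6 * i))) * (1 / Real.sqrt n)) (by positivity) hi.2
        (by positivity) (m := mB i) (by
          refine le_trans (le_of_eq ?_) (hmB i hi.1 hi.2)
          congr 1
          have : 2 / (Real.exp (-(m₁ * (16 + 6 * i))) * (1 / Real.sqrt n))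
              = (2 * Real.sqrt n) * Real.exp (m₁ * (16 + 6 * i)) := by
            rw [Real.exp_neg]
            field_simp
          rw [this, Real.log_mul (by positivity) (by positivity), Real.log_exp])
      exact ⟨P, fun _ => ⟨a1, a2, a3, a4⟩⟩
    · refine ⟨1, fun hiJ => ⟨by simp, by simp, by simp, ?_⟩⟩
      intro u hu1 hu2
      exact absurd (hu1.trans hu2) (fun h => hi ⟨hiJ, h⟩)
  choose B hB using hB
  refine ⟨(fun w => P₁.eval ((G * G) w)) *
    (fun w => (P₂.comp (X - C (p.length : ℝ))).eval (w.length : ℝ)) *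
    fun w => ((∏ i ∈ Finset.range J, B i).comp (X - C (p.length : ℝ))).eval (w.length : ℝ),
    ?_, ?_, ?_⟩
  · refine mul_mem (mul_mem (poly_mem (mul_mem hG hG) P₁ hd1) (poly_len_mem _ ?_))
      (poly_len_mem _ ?_)
    · refine natDegree_comp_le.trans ?_
      rw [natDegree_X_sub_C, mul_one]
      exact hd2
    · refine natDegree_comp_le.trans ?_
      rw [natDegree_X_sub_C, mul_one]
      refine (natDegree_prod_le _ _).trans (Finset.sum_le_sum ?_)
      intro i hi
      exact (hB i (Finset.mem_range.1 hi)).1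
  · have hprod : (∏ i ∈ Finset.range J, B i).eval 0 = 1 := by
      rw [eval_prod]
      apply Finset.prod_eq_one
      intro i hi
      exact (hB i (Finset.mem_range.1 hi)).2.1
    simp [hGp, h01, h02, hprod]
  · intro v hv hlt
    have hlen : v.length ≤ n := by rw [← hx]; exact hv.length_le
    set u : ℝ := (v.length : ℝ) - p.length with hu
    have hu0 : 0 ≤ u := by
      have : (p.length : ℝ) ≤ v.length := by exact_mod_cast hlt.le
      linarith
    have hun : u ≤ n := by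
      have h1 : (v.length : ℝ) ≤ n := by exact_mod_cast hlen
      have h2 : (0 : ℝ) ≤ p.length := Nat.cast_nonneg _
      linarith
    have hBall : ∀ i ∈ Finset.range J, |(B i).eval u| ≤ 1 := fun i hi =>
      (hB i (Finset.mem_range.1 hi)).2.2.1 u hu0 hun
    have hP2 : |P₂.eval u| ≤ 1 := hb2 _ hu0 hun
    apply sq_mul_le hn0
    simp only [Pi.mul_apply, eval_comp, eval_sub, eval_X, eval_C]
    rw [← hu, abs_mul, abs_mul, eval_prod, Finset.abs_prod]
    rcases Nat.lt_or_ge (p.length + S) v.length with hc | hc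
    · -- beyond the window
      have hcu : (S : ℝ) ≤ u := by
        have : ((p.length + S : ℕ) : ℝ) ≤ v.length := by exact_mod_cast hc.le
        push_cast at this
        linarith
      have hx1 : 1 ≤ u / S := by rwa [one_le_div hS0]
      obtain ⟨i, hi1, hi2⟩ := exists_nat_pow_near hx1 (by norm_num : (1 : ℝ) < 4)
      have hi1' : 4 ^ i * (S : ℝ) ≤ u := by rwa [le_div_iff₀ hS0] at hi1
      have hiJ : i < J := by
        have : (4 : ℝ) ^ i < 4 ^ J := by
          have h1 : 4 ^ i * (S : ℝ) < 4 ^ J * S := (hi1'.trans hun).trans_lt hJ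
          exact lt_of_mul_lt_mul_right h1 hS0.le
        exact (pow_lt_pow_iff_right₀ (by norm_num : (1 : ℝ) < 4)).1 this
      have hGv := hG3 v hv hc.le
      rw [← hu] at hGv
      have h1 : |P₁.eval (G v * G v)| ≤ Real.exp (m₁ * (16 + 6 * i)) := by
        refine (hg1 _ (mul_self_nonneg _)).trans ?_
        have h2 : G v * G v / R ^ 2 ≤ (36 * (u / S) ^ 2) ^ 2 := by
          rw [div_le_iff₀ (by positivity), ← sq, ← sq_abs (G v)]
          calc |G v| ^ 2 ≤ (R * (36 * (u / S) ^ 2)) ^ 2 := pow_le_pow_left₀ (abs_nonneg _) hGv 2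
            _ = _ := by ring
        have h3 : 0 ≤ G v * G v / R ^ 2 := by
          have := mul_self_nonneg (G v)
          positivity
        calc (7 + 8 * (G v * G v / R ^ 2)) ^ m₁ ≤ Real.exp (16 + 6 * i) ^ m₁ := by
              apply pow_le_pow_left₀ (by positivity)
              have := growth_le hx1 hi2
              linarith
          _ = Real.exp (m₁ * (16 + 6 * i)) := by rw [← Real.exp_nat_mul]
      have h2 : ∏ i ∈ Finset.range J, |(B i).eval u|
          ≤ Real.exp (-(m₁ * (16 + 6 * i))) * (1 / Real.sqrt n) := by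
        rw [← Finset.mul_prod_erase _ _ (Finset.mem_range.2 hiJ)]
        have h3 := (hB i hiJ).2.2.2 u hi1' hun
        have h4 : ∏ j ∈ (Finset.range J).erase i, |(B j).eval u| ≤ 1 := by
          apply Finset.prod_le_one (fun _ _ => abs_nonneg _)
          intro j hj
          exact hBall j (Finset.mem_of_mem_erase hj)
        calc _ ≤ (Real.exp (-(m₁ * (16 + 6 * i))) * (1 / Real.sqrt n)) * 1 :=
              mul_le_mul h3 h4 (Finset.prod_nonneg fun _ _ => abs_nonneg _) (by positivity)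
          _ = _ := mul_one _
      calc |P₁.eval (G v * G v)| * |P₂.eval u| * ∏ i ∈ Finset.range J, |(B i).eval u|
          ≤ Real.exp (m₁ * (16 + 6 * i)) * 1 *
            (Real.exp (-(m₁ * (16 + 6 * i))) * (1 / Real.sqrt n)) := by
            apply mul_le_mul _ h2 (Finset.prod_nonneg fun _ _ => abs_nonneg _) (by positivity)
            exact mul_le_mul h1 hP2 (abs_nonneg _) (Real.exp_pos _).le
        _ = 1 / Real.sqrt n := by
            rw [mul_one, ← mul_assoc, ← Real.exp_add]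
            simp
    · have hprod : ∏ i ∈ Finset.range J, |(B i).eval u| ≤ 1 :=
        Finset.prod_le_one (fun _ _ => abs_nonneg _) hBall
      have hG1' : G v * G v ≤ R ^ 2 := by
        have := hG1 v hv hlt hc
        rw [← sq, ← sq_abs]
        exact pow_le_pow_left₀ (abs_nonneg _) this 2
      have hmain : |P₁.eval (G v * G v)| * |P₂.eval u| ≤ 1 / Real.sqrt n := by
        rcases Nat.lt_or_ge v.length (p.length + Q) with hc | hc
        · have h1 : |P₁.eval (G v * G v)| ≤ 1 / Real.sqrt n := by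
            apply he1 _ _ hG1'
            have := hG2 v hv hlt hc
            rw [← sq, ← sq_abs (G v)]
            exact pow_le_pow_left₀ hδ.le this 2
          calc _ ≤ 1 / Real.sqrt n * 1 :=
                mul_le_mul h1 hP2 (abs_nonneg _) (by positivity)
            _ = _ := mul_one _
        · have h1 : |P₁.eval (G v * G v)| ≤ 1 := hb1 _ (mul_self_nonneg _) hG1'
          have h2 : |P₂.eval u| ≤ 1 / Real.sqrt n := by
            apply he2 _ _ hun
            have : ((p.length + Q : ℕ) : ℝ) ≤ v.length := by exact_mod_cast hc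
            push_cast at this
            linarith
          calc _ ≤ 1 * (1 / Real.sqrt n) :=
                mul_le_mul h1 h2 (abs_nonneg _) zero_le_one
            _ = _ := one_mul _
      calc _ ≤ 1 / Real.sqrt n * 1 :=
            mul_le_mul hmain hprod (Finset.prod_nonneg fun _ _ => abs_nonneg _) (by positivity)
        _ = _ := mul_one _

/-! ## Degrees -/

lemma sum_geom (a b : ℝ) (J : ℕ) : ∑ i ∈ Finset.range J, (1 / 2 : ℝ) ^ i * (a + b * i)
    = 2 * a + 2 * b - (1 / 2) ^ J * (2 * a + 2 * b + 2 * b * J) := by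
  induction J with
  | zero => simp
  | succ J ih =>
    rw [Finset.sum_range_succ, ih, pow_succ]
    push_cast
    ring

lemma sqrt_four_pow {n S : ℝ} (_hn : 0 ≤ n) (hS : 0 < S) (i : ℕ) :
    Real.sqrt (n / (4 ^ i * S)) = (1 / 2) ^ i * Real.sqrt (n / S) := by
  have h1 : n / (4 ^ i * S) = ((1 / 2 : ℝ) ^ i) ^ 2 * (n / S) := by
    rw [← pow_mul, mul_comm i 2, pow_mul]
    have : ((1 / 2 : ℝ) ^ 2) ^ i = 1 / 4 ^ i := by
      rw [show ((1 / 2 : ℝ) ^ 2) = 1 / 4 by norm_num, one_div_pow]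
    rw [this]
    field_simp
  rw [h1, Real.sqrt_mul (by positivity), Real.sqrt_sq (by positivity)]

/-- **Main theorem**: strings which are locally of low discrepancy. -/
theorem recon_of_window {n S Q k : ℕ} {R δ : ℝ} (hn : 2 ≤ n) (hδ : 0 < δ) (hδR : δ ≤ R)
    (hQ : 1 ≤ Q) (hQS : Q ≤ S) (hS : 2 ≤ S) (hSn : S ≤ n) (x : Fin n → Bool) (ρ : ℕ → ℝ)
    (hR : ∀ s ≤ n, ∀ t ≤ s, s ≤ t + S → |(ones x s : ℝ) - ones x t - ρ s * (s - t)| ≤ R)
    (hρ : ∀ s ≤ n, ∀ q : ℕ, 1 ≤ q → q < Q → ∀ a : ℤ, δ ≤ |q * ρ s - a|)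
    (hk : 400 * (Real.sqrt (n / S) * (R / δ) + Real.sqrt (n / Q)) * Real.log n ≤ k)
    (hkn : k ≤ n) : Reconstructible k x := by
  have hn0 : (0 : ℝ) < n := by exact_mod_cast (by omega : 0 < n)
  have hR0 : 0 < R := hδ.trans_le hδR
  have hQ0 : (0 : ℝ) < Q := by exact_mod_cast hQ
  have hS0 : (0 : ℝ) < S := by exact_mod_cast (by omega : 0 < S)
  set L : ℝ := Real.log (2 * Real.sqrt n) with hL
  have hL0 : 0 ≤ L := log_two_sqrt_pos hn
  have hL1 : L ≤ 3 / 2 * Real.log n := log_two_sqrt hn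
  have hl0 := half_le_log hn
  set m₁ : ℕ := ⌈R / δ * L⌉₊ with hm₁
  set m₂ : ℕ := ⌈Real.sqrt (n / Q) * L⌉₊ with hm₂
  set J : ℕ := Nat.log 4 n + 1 with hJ
  set W : ℝ := Real.sqrt (n / S) with hW
  let mB : ℕ → ℕ := fun i => ⌈(1 / 2 : ℝ) ^ i * W * (L + m₁ * (16 + 6 * i))⌉₊
  have hW1 : 1 ≤ W := by
    rw [hW, Real.one_le_sqrt, one_le_div hS0]; exact_mod_cast hSn
  have hJ1 : (n : ℝ) < 4 ^ J * S := by
    have h1 : n < 4 ^ J := Nat.lt_pow_succ_log_self (by norm_num) n
    have h2 : (n : ℝ) < 4 ^ J := by exact_mod_cast h1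
    have h3 : (1 : ℝ) ≤ S := by exact_mod_cast (by omega : 1 ≤ S)
    calc (n : ℝ) < 4 ^ J := h2
      _ = 4 ^ J * 1 := (mul_one _).symm
      _ ≤ 4 ^ J * S := mul_le_mul_of_nonneg_left h3 (by positivity)
  have hJ2 : (J : ℝ) ≤ Real.log n + 1 := by
    have h1 : 4 ^ (Nat.log 4 n) ≤ n := Nat.pow_log_le_self 4 (by omega)
    have h2 : ((4 : ℝ) ^ (Nat.log 4 n)) ≤ n := by exact_mod_cast h1
    have h3 := Real.log_le_log (by positivity) h2
    rw [Real.log_pow] at h3
    have h4 : (1 : ℝ) ≤ Real.log 4 := by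
      have : Real.log 4 = 2 * Real.log 2 := by
        rw [show (4 : ℝ) = 2 ^ 2 by norm_num, Real.log_pow]; norm_num
      have h5 := Real.log_two_gt_d9
      linarith
    have h5 : ((Nat.log 4 n : ℕ) : ℝ) * 1 ≤ (Nat.log 4 n : ℕ) * Real.log 4 :=
      mul_le_mul_of_nonneg_left h4 (Nat.cast_nonneg _)
    rw [hJ]
    push_cast
    linarith
  have e1 : (m₁ : ℝ) ≤ R / δ * L + 1 := (Nat.ceil_lt_add_one (by positivity)).le
  have e2 : (m₂ : ℝ) ≤ Real.sqrt (n / Q) * L + 1 := (Nat.ceil_lt_add_one (by positivity)).le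
  have e3 : ((∑ i ∈ Finset.range J, mB i : ℕ) : ℝ) ≤ W * (2 * L + 44 * m₁) + J := by
    push_cast
    calc ∑ i ∈ Finset.range J, ((mB i : ℕ) : ℝ)
        ≤ ∑ i ∈ Finset.range J, (W * ((1 / 2 : ℝ) ^ i * ((L + 16 * m₁) + (6 * m₁) * i)) + 1) := by
          apply Finset.sum_le_sum
          intro i _
          refine (Nat.ceil_lt_add_one (by positivity)).le.trans (le_of_eq ?_)
          ring
      _ = W * ∑ i ∈ Finset.range J, ((1 / 2 : ℝ) ^ i * ((L + 16 * m₁) + (6 * m₁) * i)) + J := by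
          rw [Finset.sum_add_distrib, ← Finset.mul_sum]
          simp
      _ ≤ W * (2 * L + 44 * m₁) + J := by
          rw [sum_geom]
          have h1 : 0 ≤ (1 / 2 : ℝ) ^ J * (2 * (L + 16 * m₁) + 2 * (6 * m₁) + 2 * (6 * m₁) * J) := by
            positivity
          have h2 : 2 * (L + 16 * m₁) + 2 * (6 * (m₁ : ℝ)) = 2 * L + 44 * m₁ := by ring
          rw [h2] at h1 ⊢
          have h3 := mul_le_mul_of_nonneg_left
            (sub_le_self (2 * L + 44 * (m₁ : ℝ)) h1) (by positivity : 0 ≤ W)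
          linarith
  have hx : (List.ofFn x).length = n := by simp
  apply crit_deck (l := m₁ * 2 + m₂ + ∑ i ∈ Finset.range J, mB i) _ hkn
  · intro p hp
    obtain ⟨hp1, hp2⟩ := cnt_suffix x hp
    set s : ℕ := n - p.length with hs
    have hps : (p.length : ℝ) = n - s := by
      rw [hs, Nat.cast_sub hp1]; ring
    apply exists_test_window (S := S) (Q := Q) (R := R) (δ := δ) mB hx (by omega) hδ hδR hQ hQS hSn
      hJ1 (Nat.le_ceil _) (Nat.le_ceil _) _
      (G := (fun w => (cnt [true] w : ℝ)) - (fun _ => (cnt [true] p : ℝ))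
        - (ρ s) • ((fun w : List Bool => (w.length : ℝ)) - fun _ => (p.length : ℝ)))
    · exact sub_mem (sub_mem ones_mem (const_mem _ _))
        (Submodule.smul_mem _ _ (sub_mem len_mem (const_mem _ _)))
    · simp
    · intro v hv hlt hvS
      obtain ⟨hv1, hv2⟩ := cnt_suffix x hv
      have h1 := hR s (Nat.sub_le _ _) (n - v.length) (by omega) (by omega)
      have hvt : (v.length : ℝ) = n - ((n - v.length : ℕ) : ℝ) := by
        rw [Nat.cast_sub hv1]; ring
      refine le_trans (le_of_eq ?_) h1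
      congr 1
      simp only [Pi.sub_apply, Pi.smul_apply, smul_eq_mul]
      rw [hv2, hp2, hvt, hps]
      have : ((n - (n - ((n - v.length : ℕ) : ℝ))) : ℝ) = ((n - v.length : ℕ) : ℝ) := by ring
      ring
    · intro v hv hlt hvQ
      have h1 := hρ s (Nat.sub_le _ _) (v.length - p.length) (by omega) (by omega)
        ((cnt [true] v : ℤ) - cnt [true] p)
      rw [Nat.cast_sub hlt.le] at h1
      rw [← abs_neg] at h1
      refine h1.trans (le_of_eq ?_)
      congr 1
      simp only [Pi.sub_apply, Pi.smul_apply, smul_eq_mul]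
      push_cast
      ring
    · intro v hv hvS
      obtain ⟨hv1, hv2⟩ := cnt_suffix x hv
      have h1 := chain' hR0.le hS (fun t => (ones x t : ℝ)) ρ hR (s := s) (t := n - v.length)
        (Nat.sub_le _ _) (by omega)
      have hvt : (v.length : ℝ) = n - ((n - v.length : ℕ) : ℝ) := by
        rw [Nat.cast_sub hv1]; ring
      have hd : (v.length : ℝ) - p.length = (s : ℝ) - ((n - v.length : ℕ) : ℝ) := by
        rw [hvt, hps]; ring
      rw [hd]
      refine le_trans (le_of_eq ?_) h1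
      congr 1
      simp only [Pi.sub_apply, Pi.smul_apply, smul_eq_mul]
      rw [hd, hv2, hp2]
      ring
    · intro i _ _
      rw [sqrt_four_pow hn0.le hS0]
      exact Nat.le_ceil _
  · have h1 : (1 : ℝ) ≤ R / δ := by rw [one_le_div hδ]; exact hδR
    have h2 : (1 : ℝ) ≤ Real.sqrt (n / Q) := by
      rw [Real.one_le_sqrt, one_le_div hQ0]; exact_mod_cast hQS.trans hSn
    have e4 : ((2 * (m₁ * 2 + m₂ + ∑ i ∈ Finset.range J, mB i) + 1 : ℕ) : ℝ) ≤ k := by
      refine le_trans ?_ hk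
      push_cast at e3 ⊢
      set T : ℝ := ∑ i ∈ Finset.range J, ((mB i : ℕ) : ℝ) with hT
      set A : ℝ := R / δ with hA
      set B : ℝ := Real.sqrt (n / Q) with hB
      set l : ℝ := Real.log n with hl
      have g1 : A * L ≤ 3 / 2 * (A * l) := by
        have := mul_le_mul_of_nonneg_left hL1 (by positivity : 0 ≤ A)
        linarith
      have g2 : B * L ≤ 3 / 2 * (B * l) := by
        have := mul_le_mul_of_nonneg_left hL1 (by positivity : 0 ≤ B)
        linarith
      have g3 : (1 : ℝ) / 2 ≤ A * l := by nlinarith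
      have g4 : (1 : ℝ) / 2 ≤ B * l := by nlinarith
      have g5 : (m₁ : ℝ) ≤ 7 / 2 * (A * l) := by linarith
      have g6 : (m₂ : ℝ) ≤ 7 / 2 * (B * l) := by linarith
      have g7 : A * l ≤ W * A * l := by
        have : 0 ≤ A * l := by linarith
        nlinarith
      have g8 : W * L ≤ 3 / 2 * (W * A * l) := by
        have h3 := mul_le_mul_of_nonneg_left hL1 (by positivity : 0 ≤ W)
        have h4 : W * l ≤ W * A * l := by
          have : 0 ≤ W * l := by positivity
          nlinarith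
        linarith
      have g9 : W * m₁ ≤ 7 / 2 * (W * A * l) := by
        have := mul_le_mul_of_nonneg_left g5 (by positivity : 0 ≤ W)
        linarith
      have g10 : l ≤ B * l := by nlinarith
      have g11 : 400 * (W * A + B) * l = 400 * (W * A * l) + 400 * (B * l) := by ring
      have g12 : W * (2 * L + 44 * (m₁ : ℝ)) = 2 * (W * L) + 44 * (W * m₁) := by ring
      rw [g12] at e3
      rw [g11]
      have g13 : 0 ≤ W * A * l := by positivity
      linarith
    exact_mod_cast e4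

end DeckB
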